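import Pool.Agent.W_MP_fefad7_co_h72.Sat
set_option linter.unusedSectionVars false

/-!
The Client-Waiter `k`-SAT game.
-/

namespace Pool.Agent.W_MP_fefad7_co_h72

open Filter Topology

/-- `WaiterWinsCW q W U P`: Waiter can win the `(1 : q)` Client-Waiter game in which `U` is the set
of unclaimed elements, `P` is the set of the elements already claimed by Client, and Client wins if
his final set satisfies `W`. In each round Waiter offers a nonempty set `B` of at most `q + 1`
unclaimed elements, Client claims one of these and Waiter the others; the game ends when all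
elements have been claimed. -/
inductive WaiterWinsCW {X : Type} [DecidableEq X] (q : ℕ) (W : Finset X → Prop) :
    Finset X → Finset X → Prop
  | done (P : Finset X) : ¬ W P → WaiterWinsCW q W ∅ P
  | offer (U P B : Finset X) : B ⊆ U → B.Nonempty → B.card ≤ q + 1 →
      (∀ c ∈ B, WaiterWinsCW q W (U \ B) (insert c P)) → WaiterWinsCW q W U P

theorem waiterWinsCW_congr {X : Type} [DecidableEq X] {q : ℕ} {W W' : Finset X → Prop}
    (h : ∀ P, W' P → W P) {U P : Finset X} (hw : WaiterWinsCW q W U P) :
    WaiterWinsCW q W' U P := by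
  induction hw with
  | done P hP => exact WaiterWinsCW.done P fun h' => hP (h P h')
  | offer U P B hBU hB hc _ ih => exact WaiterWinsCW.offer U P B hBU hB hc ih

/-- Waiter may offer the elements of a set one by one. -/
theorem waiterWinsCW_singles {X : Type} [DecidableEq X] {q : ℕ} {W : Finset X → Prop}
    (S U P : Finset X) (hS : S ⊆ U) (h : WaiterWinsCW q W (U \ S) (P ∪ S)) :
    WaiterWinsCW q W U P := by
  induction S using Finset.induction_on with
  | empty => simpa using h
  | insert c S hc ih =>
    have hS' : S ⊆ U := (Finset.subset_insert c S).trans hS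
    refine ih hS' ?_
    refine WaiterWinsCW.offer _ _ {c} ?_ (Finset.singleton_nonempty c) ?_ ?_
    · rw [Finset.singleton_subset_iff, Finset.mem_sdiff]
      exact ⟨hS (Finset.mem_insert_self c S), hc⟩
    · rw [Finset.card_singleton]; omega
    · intro c' hc'
      rw [Finset.mem_singleton] at hc'
      subst hc'
      have e1 : (U \ S) \ {c'} = U \ insert c' S := by
        ext z
        simp only [Finset.mem_sdiff, Finset.mem_singleton, Finset.mem_insert]
        tauto
      have e2 : insert c' (P ∪ S) = P ∪ insert c' S := by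
        ext z
        simp only [Finset.mem_union, Finset.mem_insert]
        tauto
      rw [e1, e2]
      exact h

section
variable {X Ω : Type} [DecidableEq X] [Fintype Ω] (A : Ω → Finset X)

open Classical in
/-- Client's potential in the Client-Waiter game. -/
noncomputable def cw (q : ℕ) (U P : Finset X) (α : Ω) : ℝ :=
  if ∃ C ∈ P, C ∈ A α then 0 else ((q : ℝ) / (q + 1)) ^ (A α ∩ U).card

theorem cw_nonneg (q : ℕ) (U P : Finset X) (α : Ω) : 0 ≤ cw A q U P α := by
  unfold cw
  split_ifs <;> positivity

theorem cw_step {q : ℕ} (U P B : Finset X) (hB : B ⊆ U) (hBc : B.card ≤ q + 1) (α : Ω) :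
    ∑ c ∈ B, cw A q (U \ B) (insert c P) α ≤ B.card * cw A q U P α := by
  by_cases h1 : ∃ D ∈ P, D ∈ A α
  · obtain ⟨D, hD, hDA⟩ := h1
    have e1 : cw A q U P α = 0 := by unfold cw; rw [if_pos ⟨D, hD, hDA⟩]
    have e2 : ∀ c ∈ B, cw A q (U \ B) (insert c P) α = 0 := by
      intro c _
      unfold cw
      rw [if_pos ⟨D, Finset.mem_insert_of_mem hD, hDA⟩]
    rw [e1, Finset.sum_eq_zero e2, mul_zero]
  · set ρ : ℝ := (q : ℝ) / (q + 1) with hρ
    have hρ0 : 0 ≤ ρ := by positivity
    have e1 : cw A q U P α = ρ ^ (A α ∩ U).card := by unfold cw; rw [if_neg h1]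
    have hcard : (A α ∩ U).card = (A α ∩ (U \ B)).card + (A α ∩ B).card := by
      rw [← Finset.card_union_of_disjoint]
      · congr 1
        rw [← Finset.inter_union_distrib_left, Finset.sdiff_union_of_subset hB]
      · exact Disjoint.mono Finset.inter_subset_right Finset.inter_subset_right
          Finset.sdiff_disjoint
    have e2 : ∀ c ∈ B, cw A q (U \ B) (insert c P) α =
        if c ∈ A α then 0 else ρ ^ (A α ∩ (U \ B)).card := by
      intro c _
      unfold cw
      by_cases hc : c ∈ A α
      · rw [if_pos ⟨c, Finset.mem_insert_self c P, hc⟩, if_pos hc]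
      · rw [if_neg hc, if_neg]
        rintro ⟨D, hD, hDA⟩
        rcases Finset.mem_insert.mp hD with rfl | hD
        · exact hc hDA
        · exact h1 ⟨D, hD, hDA⟩
    rw [Finset.sum_congr rfl e2, e1, ← Finset.sum_filter_add_sum_filter_not B (fun c => c ∈ A α)]
    rw [Finset.sum_congr rfl (g := fun _ => (0 : ℝ)) (fun c hc => by
      rw [if_pos (Finset.mem_filter.mp hc).2])]
    rw [Finset.sum_congr rfl (s₁ := B.filter fun c => ¬ c ∈ A α)
      (g := fun _ => ρ ^ (A α ∩ (U \ B)).card) (fun c hc => by
      rw [if_neg (Finset.mem_filter.mp hc).2])]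
    rw [Finset.sum_const_zero, zero_add, Finset.sum_const, nsmul_eq_mul, hcard, pow_add]
    have h3 : ((B.filter fun c => ¬ c ∈ A α).card : ℝ) = B.card - (A α ∩ B).card := by
      have h4 := Finset.card_filter_add_card_filter_not (s := B) (fun c => c ∈ A α)
      have h5 : (B.filter fun c => c ∈ A α) = A α ∩ B := by
        ext z
        simp only [Finset.mem_filter, Finset.mem_inter]
        tauto
      rw [h5] at h4
      rw [← h4]
      push_cast
      ring
    rw [h3]
    have hj : ((A α ∩ B).card : ℝ) ≤ B.card := by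
      exact_mod_cast Finset.card_le_card Finset.inter_subset_right
    have hBq : (B.card : ℝ) ≤ q + 1 := by exact_mod_cast hBc
    have hq1 : (0 : ℝ) < (q : ℝ) + 1 := by positivity
    have h6 : 1 - ((A α ∩ B).card : ℝ) / (q + 1) ≤ ρ ^ (A α ∩ B).card := by
      have h7 := one_add_mul_le_pow (a := -(1 / ((q : ℝ) + 1))) (by
        have : 1 / ((q : ℝ) + 1) ≤ 1 := by
          rw [div_le_one hq1]; linarith [(Nat.cast_nonneg q : (0 : ℝ) ≤ q)]
        linarith) (A α ∩ B).card
      have e3 : 1 + -(1 / ((q : ℝ) + 1)) = ρ := by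
        rw [hρ]; field_simp; ring
      rw [e3] at h7
      refine le_trans (le_of_eq ?_) h7
      ring
    have h8 : (B.card : ℝ) - (A α ∩ B).card ≤ B.card * ρ ^ (A α ∩ B).card := by
      have h9 : (B.card : ℝ) * (1 - ((A α ∩ B).card : ℝ) / (q + 1)) ≤
          B.card * ρ ^ (A α ∩ B).card := mul_le_mul_of_nonneg_left h6 (Nat.cast_nonneg _)
      refine le_trans ?_ h9
      have h10 : (B.card : ℝ) * (((A α ∩ B).card : ℝ) / (q + 1)) ≤ (A α ∩ B).card := by
        rw [← mul_div_assoc, div_le_iff₀ hq1, mul_comm]
        exact mul_le_mul_of_nonneg_left hBq (Nat.cast_nonneg _)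
      linarith
    have h11 : 0 ≤ ρ ^ (A α ∩ (U \ B)).card := by positivity
    nlinarith

/-- Client's criterion for the Client-Waiter game. -/
theorem client_of_potential {q : ℕ} {U P : Finset X} (h : WaiterWinsCW q (Hits A) U P) :
    1 ≤ ∑ α, cw A q U P α := by
  induction h with
  | done P hP =>
    unfold Hits at hP
    push Not at hP
    obtain ⟨α, hα⟩ := hP
    have h1 : cw A q ∅ P α = 1 := by
      unfold cw
      rw [if_neg (by push Not; exact hα)]
      simp
    rw [← h1]
    exact Finset.single_le_sum (fun α _ => cw_nonneg A q ∅ P α) (Finset.mem_univ α)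
  | offer U P B hBU hB hBc _ ih =>
    by_contra hlt
    push Not at hlt
    have h1 : (B.card : ℝ) ≤ ∑ c ∈ B, ∑ α, cw A q (U \ B) (insert c P) α := by
      calc (B.card : ℝ) = ∑ _c ∈ B, (1 : ℝ) := by simp
        _ ≤ _ := Finset.sum_le_sum fun c hc => ih c hc
    rw [Finset.sum_comm] at h1
    have h2 : ∑ α, ∑ c ∈ B, cw A q (U \ B) (insert c P) α ≤ B.card * ∑ α, cw A q U P α := by
      rw [Finset.mul_sum]
      exact Finset.sum_le_sum fun α _ => cw_step A U P B hBU hBc α
    have hB0 : (0 : ℝ) < B.card := by exact_mod_cast hB.card_pos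
    nlinarith

end

/-- **Client wins the Client-Waiter `k`-SAT game below the threshold predicted by random play.** -/
theorem client_sat {n k q : ℕ} (h : n * Real.log 2 * (q + 1) < n.choose k) :
    ¬ WaiterWinsCW q Unsat (board n k) ∅ := by
  intro hw
  have hw' := waiterWinsCW_congr (W' := Hits (viol (n := n))) (fun P h => (hits_viol P).mp h) hw
  have h1 := client_of_potential (viol (n := n)) hw'
  have hq1 : (0 : ℝ) < (q : ℝ) + 1 := by positivity
  set ρ : ℝ := (q : ℝ) / (q + 1) with hρ
  have hρ0 : 0 ≤ ρ := by positivity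
  have hρ1 : ρ ≤ 1 := by rw [hρ, div_le_one hq1]; linarith
  have h2 : ∑ a : Fin n → Bool, cw (viol (n := n)) q (board n k) ∅ a ≤
      2 ^ n * ρ ^ (n.choose k) := by
    calc _ ≤ ∑ _a : Fin n → Bool, ρ ^ (n.choose k) := by
          refine Finset.sum_le_sum fun a _ => ?_
          unfold cw
          rw [if_neg (by simp)]
          exact pow_le_pow_of_le_one hρ0 hρ1 (card_viol a)
      _ = _ := by
          rw [Finset.sum_const, Finset.card_univ, Fintype.card_fun, Fintype.card_bool,
            Fintype.card_fin, nsmul_eq_mul]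
          push_cast
          ring
  have h3 : ρ ≤ Real.exp (-(1 / ((q : ℝ) + 1))) := by
    have := Real.add_one_le_exp (-(1 / ((q : ℝ) + 1)))
    refine le_trans (le_of_eq ?_) this
    rw [hρ]; field_simp; ring
  have h4 : (2 : ℝ) ^ n * ρ ^ (n.choose k) < 1 := by
    calc (2 : ℝ) ^ n * ρ ^ (n.choose k) ≤
          Real.exp (n * Real.log 2) * Real.exp (-(1 / ((q : ℝ) + 1))) ^ (n.choose k) := by
          have e1 : (2 : ℝ) ^ n = Real.exp (n * Real.log 2) := by
            rw [mul_comm, Real.exp_mul, Real.exp_log (by norm_num), Real.rpow_natCast]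
          rw [e1]
          exact mul_le_mul_of_nonneg_left (pow_le_pow_left₀ hρ0 h3 _) (Real.exp_pos _).le
      _ = Real.exp (n * Real.log 2 - n.choose k / ((q : ℝ) + 1)) := by
          rw [← Real.exp_nat_mul, ← Real.exp_add]
          congr 1
          ring
      _ < Real.exp 0 := by
          refine Real.exp_lt_exp.mpr ?_
          rw [sub_neg, lt_div_iff₀ hq1]
          exact h
      _ = 1 := Real.exp_zero
  linarith

/-- The clauses that are offered together in Waiter's strategy. -/
theorem card_last {n k : ℕ} (i : Fin n) (α : Fin n → Bool)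
    (B : Finset (Finset (Fin n × Bool))) (hB : B ⊆ board n k)
    (h1 : ∀ C ∈ B, ∃ l ∈ C, l.1 = i) (h2 : ∀ C ∈ B, ∀ l ∈ C, l.1 ≤ i)
    (h3 : ∀ C ∈ B, ∀ l ∈ C, l.1 < i → α l.1 ≠ l.2) :
    B.card ≤ 2 * (n - 1).choose (k - 1) := by
  have hc : ((Finset.powersetCard (k - 1) (Finset.univ.filter fun v : Fin n => v < i)) ×ˢ
      (Finset.univ : Finset Bool)).card ≤ 2 * (n - 1).choose (k - 1) := by
    rw [Finset.card_product, Finset.card_powersetCard, Finset.card_univ, Fintype.card_bool,
      mul_comm]
    refine Nat.mul_le_mul_left 2 ?_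
    refine Nat.choose_le_choose _ ?_
    have h4 : (Finset.univ.filter fun v : Fin n => v < i).card ≤ (Finset.univ.erase i).card := by
      refine Finset.card_le_card fun v hv => ?_
      rw [Finset.mem_filter] at hv
      rw [Finset.mem_erase]
      exact ⟨hv.2.ne, Finset.mem_univ v⟩
    rw [Finset.card_erase_of_mem (Finset.mem_univ i), Finset.card_univ, Fintype.card_fin] at h4
    exact h4
  refine le_trans ?_ hc
  have hinj : ∀ C ∈ B, Set.InjOn Prod.fst (C : Set (Fin n × Bool)) := by
    intro C hC
    have := hB hC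
    rw [board, Finset.mem_filter] at this
    exact Finset.card_image_iff.mp (this.2.2.trans this.2.1.symm)
  refine Finset.card_le_card_of_injOn
    (fun C => ((C.image Prod.fst).erase i, decide ((i, true) ∈ C))) ?_ ?_
  · intro C hC
    rw [Finset.mem_coe] at hC
    rw [Finset.mem_coe, Finset.mem_product, Finset.mem_powersetCard]
    have hb := hB hC
    rw [board, Finset.mem_filter] at hb
    obtain ⟨l, hl, hli⟩ := h1 C hC
    have him : i ∈ C.image Prod.fst := Finset.mem_image.mpr ⟨l, hl, hli⟩
    refine ⟨⟨?_, ?_⟩, Finset.mem_univ _⟩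
    · intro v hv
      have hv' : v ∈ (C.image Prod.fst).erase i := hv
      rw [Finset.mem_erase] at hv'
      obtain ⟨l', hl', rfl⟩ := Finset.mem_image.mp hv'.2
      rw [Finset.mem_filter]
      exact ⟨Finset.mem_univ _, lt_of_le_of_ne (h2 C hC l' hl') hv'.1⟩
    · show ((C.image Prod.fst).erase i).card = k - 1
      rw [Finset.card_erase_of_mem him, hb.2.2]
  · have key : ∀ C ∈ B, ∀ C' ∈ B, (C.image Prod.fst).erase i = (C'.image Prod.fst).erase i →
        decide ((i, true) ∈ C) = decide ((i, true) ∈ C') → C ⊆ C' := by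
      intro C hC C' hC' e1 e2 l hl
      rcases (h2 C hC l hl).lt_or_eq with hlt | heq
      · have hm : l.1 ∈ (C.image Prod.fst).erase i :=
          Finset.mem_erase.mpr ⟨hlt.ne, Finset.mem_image.mpr ⟨l, hl, rfl⟩⟩
        rw [e1, Finset.mem_erase] at hm
        obtain ⟨l', hl', hll⟩ := Finset.mem_image.mp hm.2
        have h5 := h3 C hC l hl hlt
        have h6 := h3 C' hC' l' hl' (by rw [hll]; exact hlt)
        rw [hll] at h6
        have h7 : l.2 = l'.2 := by
          revert h5 h6
          cases α l.1 <;> cases l.2 <;> cases l'.2 <;> simp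
        have : l = l' := Prod.ext hll.symm h7
        rw [this]
        exact hl'
      · obtain ⟨l', hl', hli'⟩ := h1 C' hC'
        have e3 : ((i, true) ∈ C) ↔ ((i, true) ∈ C') := by
          have := e2
          rw [decide_eq_decide] at this
          exact this
        obtain ⟨v, b⟩ := l
        obtain ⟨v', b'⟩ := l'
        have hv : v = i := heq
        have hv' : v' = i := hli'
        subst hv
        subst hv'
        cases b with
        | true => exact e3.mp hl
        | false =>
          cases b' with
          | false => exact hl'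
          | true =>
            have h8 := e3.mpr hl'
            have := hinj C hC h8 hl rfl
            simp at this
    intro C hC C' hC' h
    have e1 := congrArg Prod.fst h
    have e2 := congrArg Prod.snd h
    exact Finset.Subset.antisymm (key C hC C' hC' e1 e2) (key C' hC' C hC e1.symm e2.symm)

theorem waiter_cw_aux {n k q : ℕ} (hq : 2 * (n - 1).choose (k - 1) ≤ q + 1) :
    ∀ (m i : ℕ), i + m = n → ∀ (α : Fin n → Bool) (U P : Finset (Finset (Fin n × Bool))),
      U ⊆ board n k → (∀ C ∈ U, ∃ l ∈ C, i ≤ l.1.val) →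
      (∀ C ∈ P, ∃ l ∈ C, l.1.val < i ∧ α l.1 = l.2) → WaiterWinsCW q Unsat U P := by
  intro m
  induction m with
  | zero =>
    intro i hi α U P _ hU hP
    have hU0 : U = ∅ := by
      rw [Finset.eq_empty_iff_forall_notMem]
      intro C hC
      obtain ⟨l, _, hl⟩ := hU C hC
      have := l.1.isLt
      omega
    subst hU0
    refine WaiterWinsCW.done P fun hun => ?_
    obtain ⟨C, hC, hv⟩ := hun α
    obtain ⟨l, hl, _, hl2⟩ := hP C hC
    exact hv l hl hl2
  | succ m ih =>
    intro i hi α U P hUb hU hP
    have hin : i < n := by omega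
    classical
    set U1 := U.filter fun C => ∀ l ∈ C, l.1.val ≤ i with hU1
    set B := U1.filter fun C => ∀ l ∈ C, l.1.val < i → α l.1 ≠ l.2 with hB
    set S := U1 \ B with hS
    have hU1U : U1 ⊆ U := Finset.filter_subset _ _
    have hBU1 : B ⊆ U1 := Finset.filter_subset _ _
    have hSU1 : S ⊆ U1 := Finset.sdiff_subset
    have hSsat : ∀ C ∈ S, ∃ l ∈ C, l.1.val < i ∧ α l.1 = l.2 := by
      intro C hC
      have hC' := Finset.mem_sdiff.mp hC
      by_contra h1
      push Not at h1
      exact hC'.2 (Finset.mem_filter.mpr ⟨hC'.1, h1⟩)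
    have hrest : ∀ C ∈ U, C ∉ S → C ∉ B → ∃ l ∈ C, i + 1 ≤ l.1.val := by
      intro C hC h1 h2
      by_contra h3
      push Not at h3
      have h4 : C ∈ U1 := by
        rw [hU1, Finset.mem_filter]
        exact ⟨hC, fun l hl => by have := h3 l hl; omega⟩
      exact h1 (by rw [hS, Finset.mem_sdiff]; exact ⟨h4, h2⟩)
    refine waiterWinsCW_singles S U P (hSU1.trans hU1U) ?_
    rcases B.eq_empty_or_nonempty with hB0 | hBne
    · refine ih (i + 1) (by omega) α _ _ (Finset.sdiff_subset.trans hUb) ?_ ?_
      · intro C hC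
        rw [Finset.mem_sdiff] at hC
        exact hrest C hC.1 hC.2 (by rw [hB0]; exact Finset.notMem_empty C)
      · intro C hC
        rcases Finset.mem_union.mp hC with hC | hC
        · obtain ⟨l, hl, h1, h2⟩ := hP C hC
          exact ⟨l, hl, by omega, h2⟩
        · obtain ⟨l, hl, h1, h2⟩ := hSsat C hC
          exact ⟨l, hl, by omega, h2⟩
    · have hBsub : B ⊆ U \ S := by
        intro C hC
        rw [Finset.mem_sdiff]
        refine ⟨hU1U (hBU1 hC), fun h => ?_⟩
        rw [hS, Finset.mem_sdiff] at h
        exact h.2 hC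
      have hlast : ∀ C ∈ B, ∃ l ∈ C, l.1 = (⟨i, hin⟩ : Fin n) := by
        intro C hC
        obtain ⟨l, hl, h1⟩ := hU C (hU1U (hBU1 hC))
        have h2 : l.1.val ≤ i := by
          have := hBU1 hC
          rw [hU1, Finset.mem_filter] at this
          exact this.2 l hl
        exact ⟨l, hl, Fin.ext (by simp; omega)⟩
      have hcard : B.card ≤ q + 1 := by
        refine le_trans (card_last (⟨i, hin⟩ : Fin n) α B
          ((hBU1.trans hU1U).trans hUb) hlast ?_ ?_) hq
        · intro C hC l hl
          have := hBU1 hC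
          rw [hU1, Finset.mem_filter] at this
          exact this.2 l hl
        · intro C hC l hl hlt
          have := hC
          rw [hB, Finset.mem_filter] at this
          exact this.2 l hl hlt
      refine WaiterWinsCW.offer _ _ B hBsub hBne hcard fun c hc => ?_
      obtain ⟨l0, hl0, hl0i⟩ := hlast c hc
      refine ih (i + 1) (by omega) (Function.update α ⟨i, hin⟩ l0.2) _ _
        ((Finset.sdiff_subset.trans Finset.sdiff_subset).trans hUb) ?_ ?_
      · intro C hC
        rw [Finset.mem_sdiff, Finset.mem_sdiff] at hC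
        exact hrest C hC.1.1 hC.1.2 hC.2
      · intro C hC
        have hold : ∀ l : Fin n × Bool, l.1.val < i → α l.1 = l.2 →
            l.1.val < i + 1 ∧ Function.update α ⟨i, hin⟩ l0.2 l.1 = l.2 := by
          intro l h1 h2
          refine ⟨by omega, ?_⟩
          rw [Function.update_of_ne, h2]
          intro h
          rw [h] at h1
          simp at h1
        rcases Finset.mem_insert.mp hC with rfl | hC
        · refine ⟨l0, hl0, ?_, ?_⟩
          · rw [hl0i]; simp
          · rw [hl0i, Function.update_self]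
        · rcases Finset.mem_union.mp hC with hC | hC
          · obtain ⟨l, hl, h1, h2⟩ := hP C hC
            exact ⟨l, hl, hold l h1 h2⟩
          · obtain ⟨l, hl, h1, h2⟩ := hSsat C hC
            exact ⟨l, hl, hold l h1 h2⟩

/-- **Waiter wins the Client-Waiter `k`-SAT game when `q + 1 ≥ 2 C(n - 1, k - 1)`.** -/
theorem waiter_cw {n k q : ℕ} (hk : 1 ≤ k) (hq : 2 * (n - 1).choose (k - 1) ≤ q + 1) :
    WaiterWinsCW q Unsat (board n k) ∅ := by
  refine waiter_cw_aux hq n 0 (by omega) (fun _ => true) _ _ le_rfl ?_ ?_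
  · intro C hC
    rw [board, Finset.mem_filter] at hC
    have : C.Nonempty := by rw [← Finset.card_pos]; omega
    obtain ⟨l, hl⟩ := this
    exact ⟨l, hl, Nat.zero_le _⟩
  · intro C hC
    simp at hC

end Pool.Agent.W_MP_fefad7_co_h72
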