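import Mathlib
set_option linter.unusedSectionVars false

/-!
Waiter-Client games, and an equalized batch lemma.
-/

namespace Pool.Agent.W_MP_fefad7_co_h72

/-- `WaiterWins q W U P`: Waiter can win the `(1 : q)` Waiter-Client game in which `U` is the set of
unclaimed elements, `P` is the set of the elements already claimed by Client, and Waiter wins if
Client's final set satisfies `W`. As long as at least `q + 1` elements are unclaimed, Waiter offers
a set `B` of exactly `q + 1` of them, Client claims one of these and Waiter the others; if fewer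
are left, Waiter takes all of them. -/
inductive WaiterWins {X : Type} [DecidableEq X] (q : ℕ) (W : Finset X → Prop) :
    Finset X → Finset X → Prop
  | stop (U P : Finset X) : U.card < q + 1 → W P → WaiterWins q W U P
  | offer (U P B : Finset X) : B ⊆ U → B.card = q + 1 →
      (∀ c ∈ B, WaiterWins q W (U \ B) (insert c P)) → WaiterWins q W U P

section
variable {X : Type} [DecidableEq X] {W : Finset X → Prop}

theorem waiterWins_of_win (hW : ∀ P P', P ⊆ P' → W P → W P') (q : ℕ) :
    ∀ (m : ℕ) (U P : Finset X), U.card ≤ m → W P → WaiterWins q W U P := by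
  intro m
  induction m with
  | zero =>
    intro U P hU hP
    exact WaiterWins.stop U P (by omega) hP
  | succ m ih =>
    intro U P hU hP
    by_cases h : U.card < q + 1
    · exact WaiterWins.stop U P h hP
    · obtain ⟨B, hBU, hB⟩ := Finset.exists_subset_card_eq (not_lt.mp h)
      refine WaiterWins.offer U P B hBU hB fun c _ => ih _ _ ?_ ?_
      · rw [Finset.card_sdiff_of_subset hBU]
        omega
      · exact hW _ _ (Finset.subset_insert c P) hP

theorem waiterWins_mono (hW : ∀ P P', P ⊆ P' → W P → W P') {q : ℕ} {U P : Finset X}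
    (h : WaiterWins (q + 1) W U P) : ∀ U' P', U ⊆ U' → P ⊆ P' → WaiterWins q W U' P' := by
  induction h with
  | stop U P _ hP =>
    intro U' P' _ hPP
    exact waiterWins_of_win hW q _ U' P' le_rfl (hW _ _ hPP hP)
  | offer U P B hBU hB _ ih =>
    intro U' P' hUU hPP
    obtain ⟨B', hB', hc⟩ := Finset.exists_subset_card_eq (s := B) (n := q + 1) (by omega)
    refine WaiterWins.offer U' P' B' ((hB'.trans hBU).trans hUU) hc fun c hcB => ?_
    exact ih c (hB' hcB) _ _ (Finset.sdiff_subset_sdiff hUU hB') (Finset.insert_subset_insert c hPP)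

theorem waiterWins_anti (hW : ∀ P P', P ⊆ P' → W P → W P') {q q' : ℕ} (hq : q ≤ q')
    {U P : Finset X} (h : WaiterWins q' W U P) : WaiterWins q W U P := by
  induction hq with
  | refl => exact h
  | step _ ih => exact ih (waiterWins_mono hW h _ _ le_rfl le_rfl)

end

/-! ### The equalized batch lemma -/

section
variable {X Ω : Type} [DecidableEq X] [Fintype Ω] (A : Ω → Finset X) (w : Ω → ℝ)

/-- The proportion of the elements of `G` that lie in `A α`. -/
noncomputable def th (G : Finset X) (α : Ω) : ℝ := ((A α ∩ G).card : ℝ) / G.card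

theorem th_nonneg (G : Finset X) (α : Ω) : 0 ≤ th A G α := by
  unfold th; positivity

theorem th_le_one (G : Finset X) (α : Ω) : th A G α ≤ 1 := by
  unfold th
  rcases Nat.eq_zero_or_pos G.card with h | h
  · rw [h]; simp
  · rw [div_le_one (by exact_mod_cast h)]
    exact_mod_cast Finset.card_le_card Finset.inter_subset_right

/-- Indicator of `C ∈ A α`. -/
noncomputable def ind (C : X) (α : Ω) : ℝ := if C ∈ A α then 1 else 0

theorem ind_nonneg (C : X) (α : Ω) : 0 ≤ ind A C α := by
  unfold ind; split_ifs <;> norm_num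

theorem ind_le_one (C : X) (α : Ω) : ind A C α ≤ 1 := by
  unfold ind; split_ifs <;> norm_num

theorem sum_ind (G : Finset X) (α : Ω) : ∑ C ∈ G, ind A C α = ((A α ∩ G).card : ℝ) := by
  unfold ind
  rw [Finset.sum_ite_mem, Finset.inter_comm]
  simp

theorem th_erase (G : Finset X) (hG : 1 < G.card) {C : X} (hC : C ∈ G) (α : Ω) :
    th A (G.erase C) α = th A G α + (th A G α - ind A C α) / (G.card - 1) := by
  have h1 : ((A α ∩ G.erase C).card : ℝ) = (A α ∩ G).card - ind A C α := by
    rw [← sum_ind, ← sum_ind, ← Finset.add_sum_erase G _ hC]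
    ring
  have h2 : ((G.erase C).card : ℝ) = G.card - 1 := by
    rw [Finset.card_erase_of_mem hC, Nat.cast_sub (by omega), Nat.cast_one]
  have h3 : (G.card : ℝ) ≠ 0 := by
    have : (0 : ℝ) < G.card := by exact_mod_cast (by omega : 0 < G.card)
    exact this.ne'
  have h4 : (G.card : ℝ) - 1 ≠ 0 := by
    have : (1 : ℝ) < G.card := by exact_mod_cast hG
    linarith
  unfold th
  rw [h1, h2]
  field_simp
  ring

/-- The total weighted by `exp θ`. -/
noncomputable def F (G : Finset X) : ℝ := ∑ α, w α * Real.exp (th A G α)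

/-- Existence of an equalized group. -/
theorem exists_group (hw : ∀ α, 0 ≤ w α) {ζ : ℝ} (hζ : 0 < ζ) (R : Finset X) (hR : R.Nonempty) :
    ∃ G ⊆ R, G.Nonempty ∧ (0 < ∑ α, w α →
      (R.card : ℝ) * Real.exp (-((Real.exp 1 - 1) / ζ)) ≤ G.card) ∧
      ∀ C ∈ G, ∑ α, w α * ((1 - ind A C α) * Real.exp (th A G α)) ≤ (1 + ζ) * ∑ α, w α := by
  set S := ∑ α, w α with hS
  have hS0 : 0 ≤ S := Finset.sum_nonneg fun α _ => hw α
  have hne : (R.powerset.filter fun G => G.Nonempty).Nonempty :=
    ⟨R, by simp [hR]⟩
  obtain ⟨G, hG, hmax⟩ := Finset.exists_max_image _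
    (fun G : Finset X => F A w G + ζ * S * Real.log G.card) hne
  rw [Finset.mem_filter, Finset.mem_powerset] at hG
  obtain ⟨hGR, hGne⟩ := hG
  refine ⟨G, hGR, hGne, ?_, ?_⟩
  · intro hSpos
    have h1 := hmax R (by simp [hR])
    have h2 : S ≤ F A w R := by
      rw [hS]
      refine Finset.sum_le_sum fun α _ => ?_
      have := Real.one_le_exp (th_nonneg A R α)
      nlinarith [hw α]
    have h3 : F A w G ≤ S * Real.exp 1 := by
      rw [hS, Finset.sum_mul]
      refine Finset.sum_le_sum fun α _ => ?_
      exact mul_le_mul_of_nonneg_left (Real.exp_le_exp.mpr (th_le_one A G α)) (hw α)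
    have hRc : (0 : ℝ) < R.card := by exact_mod_cast hR.card_pos
    have hGc : (0 : ℝ) < G.card := by exact_mod_cast hGne.card_pos
    have h4 : ζ * S * Real.log R.card - (Real.exp 1 - 1) * S ≤ ζ * S * Real.log G.card := by
      have h1' : F A w R + ζ * S * Real.log R.card ≤ F A w G + ζ * S * Real.log G.card := h1
      nlinarith
    have h5 : Real.log R.card - (Real.exp 1 - 1) / ζ ≤ Real.log G.card := by
      have hpos : 0 < ζ * S := mul_pos hζ hSpos
      have : (ζ * S) * (Real.log R.card - (Real.exp 1 - 1) / ζ) ≤ (ζ * S) * Real.log G.card := by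
        calc _ = ζ * S * Real.log R.card - (Real.exp 1 - 1) * S := by
              field_simp
          _ ≤ _ := h4
      exact le_of_mul_le_mul_left this hpos
    calc (R.card : ℝ) * Real.exp (-((Real.exp 1 - 1) / ζ))
        = Real.exp (Real.log R.card - (Real.exp 1 - 1) / ζ) := by
          rw [sub_eq_add_neg (Real.log _), Real.exp_add, Real.exp_log hRc]
      _ ≤ Real.exp (Real.log G.card) := Real.exp_le_exp.mpr h5
      _ = G.card := Real.exp_log hGc
  · intro C hC
    -- the average
    have key : ∑ α, w α * ((th A G α - ind A C α) * Real.exp (th A G α)) ≤ ζ * S := by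
      rcases Nat.lt_or_ge 1 G.card with h1 | h1
      · have hE : (G.erase C).Nonempty := by
          rw [← Finset.card_pos, Finset.card_erase_of_mem hC]
          omega
        have h2 := hmax (G.erase C) (by
          rw [Finset.mem_filter, Finset.mem_powerset]
          exact ⟨(Finset.erase_subset _ _).trans hGR, hE⟩)
        have hc : ((G.erase C).card : ℝ) = G.card - 1 := by
          rw [Finset.card_erase_of_mem hC, Nat.cast_sub (by omega), Nat.cast_one]
        have hm : (0 : ℝ) < (G.card : ℝ) - 1 := by
          have : (1 : ℝ) < G.card := by exact_mod_cast h1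
          linarith
        have h3 : F A w G + (∑ α, w α * ((th A G α - ind A C α) * Real.exp (th A G α))) /
            (G.card - 1) ≤ F A w (G.erase C) := by
          unfold F
          rw [Finset.sum_div, ← Finset.sum_add_distrib]
          refine Finset.sum_le_sum fun α _ => ?_
          rw [th_erase A G h1 hC, Real.exp_add]
          have h5 := Real.add_one_le_exp ((th A G α - ind A C α) / ((G.card : ℝ) - 1))
          have h6 := mul_le_mul_of_nonneg_left h5
            (mul_nonneg (hw α) (Real.exp_pos (th A G α)).le)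
          calc _ = w α * Real.exp (th A G α) *
                ((th A G α - ind A C α) / ((G.card : ℝ) - 1) + 1) := by ring
            _ ≤ _ := h6
            _ = _ := by ring
        have h4 : Real.log G.card - Real.log ((G.card : ℝ) - 1) ≤ 1 / ((G.card : ℝ) - 1) := by
          have hGc : (0 : ℝ) < G.card := by linarith
          rw [← Real.log_div hGc.ne' hm.ne']
          have := Real.log_le_sub_one_of_pos (div_pos hGc hm)
          calc _ ≤ (G.card : ℝ) / (G.card - 1) - 1 := this
            _ = _ := by field_simp; ring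
        have h2' : F A w (G.erase C) + ζ * S * Real.log ((G.card : ℝ) - 1) ≤
            F A w G + ζ * S * Real.log G.card := by
          have := h2
          simp only [hc] at this
          exact this
        have h7 : (∑ α, w α * ((th A G α - ind A C α) * Real.exp (th A G α))) / (G.card - 1) ≤
            ζ * S * (1 / ((G.card : ℝ) - 1)) := by
          have := mul_le_mul_of_nonneg_left h4 (mul_nonneg hζ.le hS0)
          nlinarith
        rw [mul_one_div] at h7
        exact (div_le_div_iff_of_pos_right hm).mp h7
      · have h2 : G = {C} := by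
          have h3 : G.card = 1 := le_antisymm h1 hGne.card_pos
          obtain ⟨D, hD⟩ := Finset.card_eq_one.mp h3
          rw [hD] at hC ⊢
          rw [Finset.mem_singleton] at hC
          rw [hC]
        have h3 : ∀ α, th A G α = ind A C α := by
          intro α
          unfold th
          rw [← sum_ind, h2]
          simp
        rw [Finset.sum_eq_zero (fun α _ => by rw [h3]; ring)]
        exact mul_nonneg hζ.le hS0
    calc ∑ α, w α * ((1 - ind A C α) * Real.exp (th A G α))
        = ∑ α, w α * ((1 - th A G α) * Real.exp (th A G α)) +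
          ∑ α, w α * ((th A G α - ind A C α) * Real.exp (th A G α)) := by
          rw [← Finset.sum_add_distrib]
          refine Finset.sum_congr rfl fun α _ => ?_
          ring
      _ ≤ S + ζ * S := by
          refine add_le_add ?_ key
          rw [hS]
          refine Finset.sum_le_sum fun α _ => ?_
          have h1 : (1 - th A G α) * Real.exp (th A G α) ≤ 1 := by
            have h2 := Real.add_one_le_exp (-th A G α)
            have h3 : (1 - th A G α) * Real.exp (th A G α) ≤
                Real.exp (-th A G α) * Real.exp (th A G α) :=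
              mul_le_mul_of_nonneg_right (by linarith) (Real.exp_pos _).le
            rwa [← Real.exp_add, neg_add_cancel, Real.exp_zero] at h3
          nlinarith [hw α]
      _ = _ := by ring

/-- A part of a group in which the proportions are about the same as in the whole group. -/
theorem exists_sample (hw : ∀ α, 0 ≤ w α) (G : Finset X) {r : ℕ} (hr : 0 < r) (hrG : r ≤ G.card) :
    ∃ B ⊆ G, B.card = r ∧
      ∑ α, w α * (th A B α - th A G α) ^ 2 ≤ (∑ α, w α) / (2 * r) := by
  classical
  set y : X → Ω → ℝ := fun C α => ind A C α - th A G α with hy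
  set D : Finset X → Ω → ℝ := fun B α => ∑ C ∈ B, y C α with hD
  obtain ⟨B, hB, hmin⟩ := Finset.exists_min_image (Finset.powersetCard r G)
    (fun B => ∑ α, w α * (D B α) ^ 2) (Finset.powersetCard_nonempty.mpr hrG)
  rw [Finset.mem_powersetCard] at hB
  obtain ⟨hBG, hBr⟩ := hB
  have hr0 : (0 : ℝ) < r := by exact_mod_cast hr
  have hGr : (r : ℝ) ≤ G.card := by exact_mod_cast hrG
  have hG0 : (0 : ℝ) < G.card := by linarith
  have hDG : ∀ α, D G α = 0 := by
    intro α
    simp only [hD, hy]
    rw [Finset.sum_sub_distrib, sum_ind, Finset.sum_const, nsmul_eq_mul, th]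
    field_simp
    ring
  have hDc : ∀ α, ∑ C ∈ G \ B, y C α = - D B α := by
    intro α
    have := Finset.sum_sdiff (f := fun C => y C α) hBG
    have h0 := hDG α
    simp only [hD] at h0 ⊢
    linarith
  have hDB : ∀ α, D B α = r * (th A B α - th A G α) := by
    intro α
    simp only [hD, hy]
    rw [Finset.sum_sub_distrib, sum_ind, Finset.sum_const, nsmul_eq_mul, hBr]
    have : th A B α = ((A α ∩ B).card : ℝ) / r := by rw [th, hBr]
    rw [this]
    field_simp
  have hcB : ((G \ B).card : ℝ) = G.card - r := by
    rw [Finset.card_sdiff_of_subset hBG, hBr, Nat.cast_sub hrG]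
  -- swapping
  have hswap : ∀ C ∈ B, ∀ C' ∈ G \ B,
      ∑ α, w α * (D B α) ^ 2 ≤ ∑ α, w α * (D B α - y C α + y C' α) ^ 2 := by
    intro C hC C' hC'
    rw [Finset.mem_sdiff] at hC'
    have h1 : C' ∉ B.erase C := fun h => hC'.2 (Finset.mem_of_mem_erase h)
    have h2 := hmin (insert C' (B.erase C)) (by
      rw [Finset.mem_powersetCard]
      refine ⟨?_, ?_⟩
      · intro z hz
        rcases Finset.mem_insert.mp hz with rfl | hz
        · exact hC'.1
        · exact hBG (Finset.mem_of_mem_erase hz)
      · rw [Finset.card_insert_of_notMem h1, Finset.card_erase_of_mem hC, hBr]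
        omega)
    have h3 : ∀ α, D (insert C' (B.erase C)) α = D B α - y C α + y C' α := by
      intro α
      simp only [hD]
      rw [Finset.sum_insert h1, ← Finset.add_sum_erase B (fun C => y C α) hC]
      ring
    simp only [h3] at h2
    exact h2
  have hsum : ∑ C ∈ B, ∑ C' ∈ G \ B, ∑ α, w α * (D B α) ^ 2 ≤
      ∑ C ∈ B, ∑ C' ∈ G \ B, ∑ α, w α * (D B α - y C α + y C' α) ^ 2 :=
    Finset.sum_le_sum fun C hC => Finset.sum_le_sum fun C' hC' => hswap C hC C' hC'
  have hpt : ∀ α, ∑ C ∈ B, ∑ C' ∈ G \ B, (D B α - y C α + y C' α) ^ 2 ≤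
      (r * (G.card - r) - 2 * G.card) * (D B α) ^ 2 + r * (G.card - r) := by
    intro α
    have h1 : ∀ C ∈ B, ∀ C' ∈ G \ B, (D B α - y C α + y C' α) ^ 2 ≤
        (D B α) ^ 2 - 2 * D B α * y C α + 2 * D B α * y C' α + 1 := by
      intro C _ C' _
      have h2 : (y C' α - y C α) ^ 2 ≤ 1 := by
        have e : y C' α - y C α = ind A C' α - ind A C α := by simp only [hy]; ring
        rw [e]
        have a1 := ind_nonneg A C α
        have a2 := ind_le_one A C α
        have a3 := ind_nonneg A C' α
        have a4 := ind_le_one A C' α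
        rw [sq_le_one_iff_abs_le_one, abs_le]
        constructor <;> linarith
      nlinarith
    calc _ ≤ ∑ C ∈ B, ∑ C' ∈ G \ B,
          ((D B α) ^ 2 - 2 * D B α * y C α + 2 * D B α * y C' α + 1) :=
          Finset.sum_le_sum fun C hC => Finset.sum_le_sum fun C' hC' => h1 C hC C' hC'
      _ = _ := by
          simp only [Finset.sum_add_distrib, Finset.sum_sub_distrib, Finset.sum_const,
            nsmul_eq_mul, ← Finset.mul_sum, hDc, hcB, hBr]
          have e : ∑ C ∈ B, y C α = D B α := rfl
          rw [e]
          ring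
  have h4 : 2 * G.card * ∑ α, w α * (D B α) ^ 2 ≤ r * (G.card - r) * ∑ α, w α := by
    have h5 : ∑ C ∈ B, ∑ C' ∈ G \ B, ∑ α, w α * (D B α - y C α + y C' α) ^ 2 =
        ∑ α, w α * ∑ C ∈ B, ∑ C' ∈ G \ B, (D B α - y C α + y C' α) ^ 2 := by
      simp only [Finset.mul_sum]
      symm
      rw [Finset.sum_comm]
      exact Finset.sum_congr rfl fun C _ => Finset.sum_comm
    have h6 : ∑ α, w α * ∑ C ∈ B, ∑ C' ∈ G \ B, (D B α - y C α + y C' α) ^ 2 ≤
        ∑ α, w α * ((r * (G.card - r) - 2 * G.card) * (D B α) ^ 2 + r * (G.card - r)) :=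
      Finset.sum_le_sum fun α _ => mul_le_mul_of_nonneg_left (hpt α) (hw α)
    have h7 : ∑ α, w α * ((r * (G.card - r) - 2 * G.card) * (D B α) ^ 2 + r * (G.card - r)) =
        (r * (G.card - r) - 2 * G.card) * ∑ α, w α * (D B α) ^ 2 +
          r * (G.card - r) * ∑ α, w α := by
      rw [Finset.mul_sum, Finset.mul_sum, ← Finset.sum_add_distrib]
      refine Finset.sum_congr rfl fun α _ => ?_
      ring
    have h8 : ∑ C ∈ B, ∑ C' ∈ G \ B, ∑ α, w α * (D B α) ^ 2 =
        r * (G.card - r) * ∑ α, w α * (D B α) ^ 2 := by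
      rw [Finset.sum_const, Finset.sum_const, nsmul_eq_mul, nsmul_eq_mul, hcB, hBr]
      ring
    rw [h8, h5] at hsum
    rw [h7] at h6
    linarith
  refine ⟨B, hBG, hBr, ?_⟩
  have h9 : ∑ α, w α * (D B α) ^ 2 = r ^ 2 * ∑ α, w α * (th A B α - th A G α) ^ 2 := by
    rw [Finset.mul_sum]
    refine Finset.sum_congr rfl fun α _ => ?_
    rw [hDB]
    ring
  have hS0 : 0 ≤ ∑ α, w α := Finset.sum_nonneg fun α _ => hw α
  rw [h9] at h4
  set Z := ∑ α, w α * (th A B α - th A G α) ^ 2 with hZ
  rw [le_div_iff₀ (by positivity)]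
  have h10 : (G.card : ℝ) * r * (Z * (2 * r)) ≤ (G.card : ℝ) * r * ∑ α, w α := by
    calc (G.card : ℝ) * r * (Z * (2 * r)) = 2 * G.card * (r ^ 2 * Z) := by ring
      _ ≤ r * (G.card - r) * ∑ α, w α := h4
      _ ≤ _ := by
        have : (r : ℝ) * (G.card - r) ≤ G.card * r := by nlinarith
        exact mul_le_mul_of_nonneg_right this hS0
  exact le_of_mul_le_mul_left h10 (by positivity)

end

end Pool.Agent.W_MP_fefad7_co_h72
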