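import Pool.Agent.W_MP_fefad7_co_h72.CW
set_option linter.unusedSectionVars false

/-!
A satisfiability criterion for `k`-SAT formulas.
-/

namespace Pool.Agent.W_MP_fefad7_co_h72

/-- The variables of a clause. -/
def vars {n : ℕ} (C : Finset (Fin n × Bool)) : Finset (Fin n) := C.image Prod.fst

section Count
variable {n : ℕ} (Z : Finset (Fin n)) (G : Finset (Finset (Fin n × Bool)))

/-- The assignments of the variables in `W` that satisfy, outside `Z`, all clauses of `G` whose
variables outside `Z` are in `W`. -/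
noncomputable def Sol (W : Finset (Fin n)) : Finset (Fin n → Bool) :=
  @Finset.filter _ (fun a => (∀ v, v ∉ W → a v = false) ∧
    ∀ C ∈ G, vars C \ Z ⊆ W → ∃ l ∈ C, l.1 ∉ Z ∧ a l.1 = l.2) (Classical.decPred _) Finset.univ

theorem mem_sol {W : Finset (Fin n)} {a : Fin n → Bool} :
    a ∈ Sol Z G W ↔ (∀ v, v ∉ W → a v = false) ∧
      ∀ C ∈ G, vars C \ Z ⊆ W → ∃ l ∈ C, l.1 ∉ Z ∧ a l.1 = l.2 := by
  simp only [Sol, Finset.mem_filter, Finset.mem_univ, true_and]

/-- Restriction of an assignment. -/
noncomputable def restr (W : Finset (Fin n)) (a : Fin n → Bool) : Fin n → Bool :=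
  fun u => if u ∈ W then a u else false

theorem sol_step {W : Finset (Fin n)} {v : Fin n} (hvW : v ∉ W) {β : ℝ} (hβ : 1 ≤ β) {m D : ℕ}
    (hG : ∀ C ∈ G, m + 1 ≤ (vars C \ Z).card)
    (hdeg : (G.filter fun C => v ∈ vars C).card ≤ D)
    (hD : (D : ℝ) ≤ (2 - β) * β ^ m)
    (hind : ∀ T ⊆ W, β ^ T.card * ((Sol Z G (W \ T)).card : ℝ) ≤ (Sol Z G W).card) :
    β * ((Sol Z G W).card : ℝ) ≤ (Sol Z G (insert v W)).card := by
  classical
  set Im : Finset (Fin n → Bool) :=
    (Sol Z G W ×ˢ (Finset.univ : Finset Bool)).image fun p => Function.update p.1 v p.2 with hIm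
  have hImc : Im.card = (Sol Z G W).card * 2 := by
    rw [hIm, Finset.card_image_of_injOn, Finset.card_product, Finset.card_univ, Fintype.card_bool]
    rintro ⟨a, b⟩ hab ⟨a', b'⟩ hab' h
    rw [Finset.mem_coe, Finset.mem_product] at hab hab'
    have ha := ((mem_sol Z G).mp hab.1).1 v hvW
    have ha' := ((mem_sol Z G).mp hab'.1).1 v hvW
    have h' : Function.update a v b = Function.update a' v b' := h
    have hb : b = b' := by
      have := congrFun h' v
      rwa [Function.update_self, Function.update_self] at this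
    have haa : a = a' := by
      funext u
      by_cases hu : u = v
      · subst hu
        exact ha.trans ha'.symm
      · have := congrFun h' u
        rwa [Function.update_of_ne hu, Function.update_of_ne hu] at this
    rw [hb, haa]
  set Bad : Finset (Fin n × Bool) → Finset (Fin n → Bool) := fun C =>
    Im.filter fun a => ∀ l ∈ C, l.1 ∉ Z → a l.1 ≠ l.2 with hBad
  set Gv := G.filter fun C => v ∈ vars C ∧ vars C \ Z ⊆ insert v W with hGv
  have hcover : Im ⊆ Sol Z G (insert v W) ∪ Gv.biUnion Bad := by
    intro a' ha'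
    by_cases hs : a' ∈ Sol Z G (insert v W)
    · exact Finset.mem_union_left _ hs
    · refine Finset.mem_union_right _ ?_
      rw [mem_sol] at hs
      rw [hIm, Finset.mem_image] at ha'
      obtain ⟨⟨a, b⟩, hab, rfl⟩ := ha'
      rw [Finset.mem_product] at hab
      have ha := (mem_sol Z G).mp hab.1
      have h1 : ∀ u, u ∉ insert v W → Function.update a v b u = false := by
        intro u hu
        rw [Finset.mem_insert, not_or] at hu
        rw [Function.update_of_ne hu.1]
        exact ha.1 u hu.2
      have h2 : ¬ ∀ C ∈ G, vars C \ Z ⊆ insert v W →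
          ∃ l ∈ C, l.1 ∉ Z ∧ Function.update a v b l.1 = l.2 := fun h => hs ⟨h1, h⟩
      push Not at h2
      obtain ⟨C, hC, hCW, hCb⟩ := h2
      rw [Finset.mem_biUnion]
      refine ⟨C, ?_, ?_⟩
      · rw [hGv, Finset.mem_filter]
        refine ⟨hC, ?_, hCW⟩
        by_contra hvC
        have h3 : vars C \ Z ⊆ W := by
          intro u hu
          have h4 := hCW hu
          rw [Finset.mem_insert] at h4
          rcases h4 with rfl | h4
          · exact absurd (Finset.mem_sdiff.mp hu).1 hvC
          · exact h4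
        obtain ⟨l, hl, hlZ, hla⟩ := ha.2 C hC h3
        have h5 : l.1 ≠ v := by
          intro h
          exact hvC (h ▸ Finset.mem_image.mpr ⟨l, hl, rfl⟩)
        have h6 := hCb l hl hlZ
        rw [Function.update_of_ne h5] at h6
        exact h6 hla
      · rw [hBad, Finset.mem_filter]
        refine ⟨?_, hCb⟩
        rw [hIm, Finset.mem_image]
        exact ⟨(a, b), Finset.mem_product.mpr hab, rfl⟩
  have hbad : ∀ C ∈ Gv, β ^ m * ((Bad C).card : ℝ) ≤ (Sol Z G W).card := by
    intro C hC
    rw [hGv, Finset.mem_filter] at hC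
    set T := (vars C \ Z) ∩ W with hT
    have hTW : T ⊆ W := Finset.inter_subset_right
    have hTc : m ≤ T.card := by
      have h1 : vars C \ Z ⊆ insert v T := by
        intro u hu
        have h2 := hC.2.2 hu
        rw [Finset.mem_insert] at h2 ⊢
        rcases h2 with h2 | h2
        · exact Or.inl h2
        · exact Or.inr (Finset.mem_inter.mpr ⟨hu, h2⟩)
      have h3 := (hG C hC.1).trans ((Finset.card_le_card h1).trans (Finset.card_insert_le v T))
      omega
    have hle : (Bad C).card ≤ (Sol Z G (W \ T)).card := by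
      refine Finset.card_le_card_of_injOn (restr (W \ T)) ?_ ?_
      · intro a' ha'
        rw [Finset.mem_coe, hBad, Finset.mem_filter, hIm, Finset.mem_image] at ha'
        obtain ⟨⟨⟨a, b⟩, hab, rfl⟩, _⟩ := ha'
        rw [Finset.mem_product] at hab
        have ha := (mem_sol Z G).mp hab.1
        rw [Finset.mem_coe, mem_sol]
        refine ⟨fun u hu => by unfold restr; rw [if_neg hu], fun C' hC' hCW' => ?_⟩
        obtain ⟨l, hl, hlZ, hla⟩ := ha.2 C' hC' (hCW'.trans Finset.sdiff_subset)
        have h4 : l.1 ∈ W \ T := hCW' (Finset.mem_sdiff.mpr ⟨Finset.mem_image.mpr ⟨l, hl, rfl⟩, hlZ⟩)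
        refine ⟨l, hl, hlZ, ?_⟩
        unfold restr
        rw [if_pos h4, Function.update_of_ne, hla]
        intro h
        rw [h] at h4
        exact hvW (Finset.mem_sdiff.mp h4).1
      · intro a1 h1 a2 h2 h
        rw [Finset.mem_coe, hBad, Finset.mem_filter, hIm, Finset.mem_image] at h1 h2
        obtain ⟨⟨⟨a, b⟩, hab, e1⟩, hb1⟩ := h1
        obtain ⟨⟨⟨a', b'⟩, hab', e2⟩, hb2⟩ := h2
        rw [Finset.mem_product] at hab hab'
        have ha := (mem_sol Z G).mp hab.1
        have ha' := (mem_sol Z G).mp hab'.1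
        funext u
        by_cases hu1 : u ∈ vars C \ Z
        · rw [Finset.mem_sdiff] at hu1
          obtain ⟨l, hl, rfl⟩ := Finset.mem_image.mp hu1.1
          have h3 := hb1 l hl hu1.2
          have h4 := hb2 l hl hu1.2
          revert h3 h4
          cases a1 l.1 <;> cases a2 l.1 <;> cases l.2 <;> simp
        · by_cases hu2 : u ∈ W
          · have h5 : u ∈ W \ T := by
              rw [Finset.mem_sdiff, hT, Finset.mem_inter]
              exact ⟨hu2, fun h => hu1 h.1⟩
            have h6 := congrFun h u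
            unfold restr at h6
            rwa [if_pos h5, if_pos h5] at h6
          · -- outside
            by_cases h7 : u = v
            · -- `v` is a variable of `C`; it must be in `Z`
              exfalso
              have h8 := hTc
              have h9 : vars C \ Z ⊆ W := by
                intro w hw
                have h10 := hC.2.2 hw
                rw [Finset.mem_insert] at h10
                rcases h10 with h10 | h10
                · exact absurd (by rw [← h10.trans h7.symm]; exact hw) hu1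
                · exact h10
              obtain ⟨l, hl, hlZ, hla⟩ := ha.2 C hC.1 h9
              have h11 := hb1 l hl hlZ
              rw [← e1] at h11
              have h12 : l.1 ≠ v := by
                intro h
                apply hvW
                rw [← h]
                exact h9 (Finset.mem_sdiff.mpr ⟨Finset.mem_image.mpr ⟨l, hl, rfl⟩, hlZ⟩)
              have h13 : Function.update a v b l.1 ≠ l.2 := h11
              rw [Function.update_of_ne h12] at h13
              exact h13 hla
            · rw [← e1, ← e2]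
              show Function.update a v b u = Function.update a' v b' u
              rw [Function.update_of_ne h7, Function.update_of_ne h7]
              exact (ha.1 u hu2).trans (ha'.1 u hu2).symm
    calc β ^ m * ((Bad C).card : ℝ) ≤ β ^ T.card * ((Sol Z G (W \ T)).card : ℝ) := by
          refine mul_le_mul (pow_le_pow_right₀ hβ hTc) (by exact_mod_cast hle)
            (Nat.cast_nonneg _) (by positivity)
      _ ≤ _ := hind T hTW
  have hcard : ((Sol Z G W).card : ℝ) * 2 ≤
      (Sol Z G (insert v W)).card + ∑ C ∈ Gv, ((Bad C).card : ℝ) := by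
    have h1 : Im.card ≤ (Sol Z G (insert v W)).card + ∑ C ∈ Gv, (Bad C).card :=
      (Finset.card_le_card hcover).trans ((Finset.card_union_le _ _).trans
        (Nat.add_le_add_left Finset.card_biUnion_le _))
    rw [hImc] at h1
    exact_mod_cast h1
  have hβm : 0 < β ^ m := by positivity
  have hsum : β ^ m * ∑ C ∈ Gv, ((Bad C).card : ℝ) ≤ D * (Sol Z G W).card := by
    rw [Finset.mul_sum]
    calc ∑ C ∈ Gv, β ^ m * ((Bad C).card : ℝ) ≤ ∑ _C ∈ Gv, ((Sol Z G W).card : ℝ) :=
          Finset.sum_le_sum hbad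
      _ = (Gv.card : ℝ) * (Sol Z G W).card := by rw [Finset.sum_const, nsmul_eq_mul]
      _ ≤ _ := by
          refine mul_le_mul_of_nonneg_right ?_ (Nat.cast_nonneg _)
          have : Gv ⊆ G.filter fun C => v ∈ vars C := by
            intro C hC
            rw [hGv, Finset.mem_filter] at hC
            exact Finset.mem_filter.mpr ⟨hC.1, hC.2.1⟩
          exact_mod_cast (Finset.card_le_card this).trans hdeg
  have hN : (0 : ℝ) ≤ (Sol Z G W).card := Nat.cast_nonneg _
  have h7 : β ^ m * (((Sol Z G W).card : ℝ) * 2) ≤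
      β ^ m * (Sol Z G (insert v W)).card + (2 - β) * β ^ m * (Sol Z G W).card := by
    calc β ^ m * (((Sol Z G W).card : ℝ) * 2) ≤ β ^ m * ((Sol Z G (insert v W)).card +
          ∑ C ∈ Gv, ((Bad C).card : ℝ)) := mul_le_mul_of_nonneg_left hcard hβm.le
      _ = β ^ m * (Sol Z G (insert v W)).card + β ^ m * ∑ C ∈ Gv, ((Bad C).card : ℝ) := by ring
      _ ≤ _ := by
          have := mul_le_mul_of_nonneg_right hD hN
          linarith
  have h8 : β ^ m * (β * (Sol Z G W).card) ≤ β ^ m * (Sol Z G (insert v W)).card := by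
    linarith
  exact le_of_mul_le_mul_left h8 hβm

theorem sol_induct {β : ℝ} (hβ : 1 ≤ β) {m D : ℕ}
    (hG : ∀ C ∈ G, m + 1 ≤ (vars C \ Z).card) (hD : (D : ℝ) ≤ (2 - β) * β ^ m) :
    ∀ (s : ℕ) (W : Finset (Fin n)), W.card = s →
      (∀ v ∈ W, (G.filter fun C => v ∈ vars C).card ≤ D) →
      ∀ T ⊆ W, β ^ T.card * ((Sol Z G (W \ T)).card : ℝ) ≤ (Sol Z G W).card := by
  intro s
  induction s with
  | zero =>
    intro W hW _ T hT
    rw [Finset.card_eq_zero] at hW
    subst hW
    have : T = ∅ := Finset.subset_empty.mp hT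
    subst this
    simp
  | succ s ih =>
    intro W hW hdeg T hT
    rcases T.eq_empty_or_nonempty with rfl | ⟨v, hv⟩
    · simp
    · have hvW : v ∈ W := hT hv
      have h0 : (W.erase v).card = s := by rw [Finset.card_erase_of_mem hvW, hW]; rfl
      have hI := ih (W.erase v) h0 fun u hu => hdeg u (Finset.mem_of_mem_erase hu)
      have hstep := sol_step Z G (W := W.erase v) (v := v) (Finset.notMem_erase v W) hβ hG
        (hdeg v hvW) hD hI
      rw [Finset.insert_erase hvW] at hstep
      have hI' := hI (T.erase v) (Finset.erase_subset_erase v hT)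
      have e1 : W.erase v \ T.erase v = W \ T := by
        ext u
        simp only [Finset.mem_sdiff, Finset.mem_erase]
        constructor
        · rintro ⟨⟨h1, h2⟩, h3⟩
          exact ⟨h2, fun h => h3 ⟨h1, h⟩⟩
        · rintro ⟨h1, h2⟩
          have : u ≠ v := fun h => h2 (h ▸ hv)
          exact ⟨⟨this, h1⟩, fun h => h2 h.2⟩
      rw [e1] at hI'
      have e2 : T.card = (T.erase v).card + 1 := by
        rw [Finset.card_erase_of_mem hv]
        have := Finset.card_pos.mpr ⟨v, hv⟩
        omega
      rw [e2, pow_succ]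
      calc β ^ (T.erase v).card * β * ((Sol Z G (W \ T)).card : ℝ)
          = β * (β ^ (T.erase v).card * ((Sol Z G (W \ T)).card : ℝ)) := by ring
        _ ≤ β * ((Sol Z G (W.erase v)).card : ℝ) :=
            mul_le_mul_of_nonneg_left hI' (by linarith)
        _ ≤ _ := hstep

theorem exists_sol {β : ℝ} (hβ : 1 ≤ β) {m D : ℕ}
    (hG : ∀ C ∈ G, m + 1 ≤ (vars C \ Z).card) (hD : (D : ℝ) ≤ (2 - β) * β ^ m)
    (hdeg : ∀ v, v ∉ Z → (G.filter fun C => v ∈ vars C).card ≤ D) :
    ∃ a : Fin n → Bool, ∀ C ∈ G, ∃ l ∈ C, l.1 ∉ Z ∧ a l.1 = l.2 := by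
  have h1 := sol_induct Z G hβ hG hD _ (Finset.univ \ Z) rfl
    (fun v hv => hdeg v (Finset.mem_sdiff.mp hv).2) _ le_rfl
  rw [Finset.sdiff_self] at h1
  have h2 : (1 : ℝ) ≤ (Sol Z G ∅).card := by
    have : 0 < (Sol Z G ∅).card := by
      rw [Finset.card_pos]
      refine ⟨fun _ => false, ?_⟩
      rw [mem_sol]
      refine ⟨fun _ _ => rfl, fun C hC hCW => ?_⟩
      have h3 := hG C hC
      rw [Finset.subset_empty.mp hCW, Finset.card_empty] at h3
      omega
    exact_mod_cast this
  have h3 : (0 : ℝ) < (Sol Z G (Finset.univ \ Z)).card := by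
    have : (0 : ℝ) < β ^ (Finset.univ \ Z).card * ((Sol Z G ∅).card : ℝ) := by positivity
    linarith
  have h4 : 0 < (Sol Z G (Finset.univ \ Z)).card := by exact_mod_cast h3
  obtain ⟨a, ha⟩ := Finset.card_pos.mp h4
  refine ⟨a, fun C hC => ((mem_sol Z G).mp ha).2 C hC ?_⟩
  exact Finset.sdiff_subset_sdiff (Finset.subset_univ _) le_rfl

end Count

/-- The structure forced by unsatisfiability: a set `S` of vertices of large degree and more than
`|S|` clauses having at least two variables in `S`. -/
theorem unsat_structure {n k D : ℕ} (P : Finset (Finset (Fin n × Bool))) (hP : P ⊆ board n k)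
    (hk : 2 ≤ k) {β : ℝ} (hβ : 1 ≤ β) (hD : (D : ℝ) ≤ (2 - β) * β ^ (k - 2)) (hun : Unsat P) :
    ∃ S : Finset (Fin n), S.Nonempty ∧
      (∀ v ∈ S, D + 1 ≤ (P.filter fun C => v ∈ vars C).card) ∧
      S.card + 1 ≤ (P.filter fun C => 2 ≤ (vars C ∩ S).card).card := by
  classical
  set Z : Finset (Fin n) := Finset.univ.filter fun v =>
    D + 1 ≤ (P.filter fun C => v ∈ vars C).card with hZ
  set L := P.filter fun C => 2 ≤ (vars C ∩ Z).card with hL
  set G := P.filter fun C => ¬ 2 ≤ (vars C ∩ Z).card with hG
  by_contra hno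
  push Not at hno
  have hvc : ∀ C ∈ P, (vars C).card = k := by
    intro C hC
    have := hP hC
    rw [board, Finset.mem_filter] at this
    exact this.2.2
  -- Hall
  have hall : ∀ s : Finset {C // C ∈ L}, s.card ≤ (s.biUnion fun C => vars C.1 ∩ Z).card := by
    intro s
    by_contra hs
    push Not at hs
    set S := s.biUnion fun C => vars C.1 ∩ Z with hS
    have hsne : s.Nonempty := by rw [← Finset.card_pos]; omega
    obtain ⟨C0, hC0⟩ := hsne
    have h2 : ∀ C ∈ s, 2 ≤ (vars C.1 ∩ Z).card := fun C _ => (Finset.mem_filter.mp C.2).2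
    have hsub : ∀ C ∈ s, vars C.1 ∩ Z ⊆ S := fun C hC =>
      Finset.subset_biUnion_of_mem (fun C : {C // C ∈ L} => vars C.1 ∩ Z) hC
    have hSne : S.Nonempty := by
      have : 0 < (vars C0.1 ∩ Z).card := by have := h2 C0 hC0; omega
      obtain ⟨u, hu⟩ := Finset.card_pos.mp this
      exact ⟨u, hsub C0 hC0 hu⟩
    have h3 := hno S hSne (fun v hv => by
      rw [hS, Finset.mem_biUnion] at hv
      obtain ⟨C, _, hv⟩ := hv
      have := (Finset.mem_inter.mp hv).2
      rw [hZ, Finset.mem_filter] at this
      exact this.2)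
    have h4 : s.card ≤ (P.filter fun C => 2 ≤ (vars C ∩ S).card).card := by
      have h5 : (s.map (Function.Embedding.subtype _)).card = s.card := Finset.card_map _
      rw [← h5]
      refine Finset.card_le_card fun C hC => ?_
      rw [Finset.mem_map] at hC
      obtain ⟨C', hC', rfl⟩ := hC
      rw [Finset.mem_filter]
      refine ⟨(Finset.mem_filter.mp C'.2).1, (h2 C' hC').trans (Finset.card_le_card ?_)⟩
      exact Finset.subset_inter Finset.inter_subset_left (hsub C' hC')
    omega
  obtain ⟨f, hfinj, hf⟩ := (Finset.all_card_le_biUnion_card_iff_exists_injective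
    (fun C : {C // C ∈ L} => vars C.1 ∩ Z)).mp hall
  obtain ⟨a, ha⟩ := exists_sol Z G hβ (m := k - 2) (D := D) (by
    intro C hC
    rw [hG, Finset.mem_filter] at hC
    have h1 := Finset.card_sdiff_add_card_inter (vars C) Z
    rw [hvc C hC.1] at h1
    omega) hD (by
    intro v hv
    rw [hZ, Finset.mem_filter] at hv
    have h1 : (G.filter fun C => v ∈ vars C).card ≤ (P.filter fun C => v ∈ vars C).card :=
      Finset.card_le_card (Finset.filter_subset_filter _ (Finset.filter_subset _ _))
    have h2 : ¬ D + 1 ≤ (P.filter fun C => v ∈ vars C).card := fun h =>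
      hv ⟨Finset.mem_univ v, h⟩
    omega)
  -- literals at the representatives
  have hlit : ∀ C : {C // C ∈ L}, ∃ l ∈ C.1, l.1 = f C := by
    intro C
    have := (Finset.mem_inter.mp (hf C)).1
    obtain ⟨l, hl, h⟩ := Finset.mem_image.mp this
    exact ⟨l, hl, h⟩
  choose g hg1 hg2 using hlit
  set A : Fin n → Bool := fun v =>
    if h : ∃ C : {C // C ∈ L}, f C = v then (g h.choose).2 else a v with hA
  obtain ⟨C, hC, hviol⟩ := hun A
  by_cases hCL : C ∈ L
  · have h1 : ∃ C' : {C // C ∈ L}, f C' = f ⟨C, hCL⟩ := ⟨⟨C, hCL⟩, rfl⟩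
    have h2 : h1.choose = ⟨C, hCL⟩ := hfinj h1.choose_spec
    have h3 := hviol (g ⟨C, hCL⟩) (hg1 ⟨C, hCL⟩)
    rw [hg2 ⟨C, hCL⟩] at h3
    apply h3
    rw [hA]
    simp only
    rw [dif_pos h1, h2]
  · have hCG : C ∈ G := by
      rw [hG, Finset.mem_filter]
      refine ⟨hC, fun h => hCL ?_⟩
      rw [hL, Finset.mem_filter]
      exact ⟨hC, h⟩
    obtain ⟨l, hl, hlZ, hla⟩ := ha C hCG
    have h3 := hviol l hl
    apply h3
    rw [hA]
    simp only
    rw [dif_neg, hla]
    rintro ⟨C', hC'⟩
    have := (Finset.mem_inter.mp (hf C')).2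
    rw [hC'] at this
    exact hlZ this

end Pool.Agent.W_MP_fefad7_co_h72
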