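import Pool.Agent.W_MP_fefad7_co_h72.Lll
set_option linter.unusedSectionVars false

/-!
Sums over the board of the `k`-SAT game.
-/

namespace Pool.Agent.W_MP_fefad7_co_h72

theorem choose_sub_le {n k : ℕ} (hkn : k ≤ n) :
    ∀ j ≤ k, ((n - j).choose (k - j) : ℝ) * (n : ℝ) ^ j ≤ n.choose k * (k : ℝ) ^ j := by
  intro j
  induction j with
  | zero => intro _; simp
  | succ j ih =>
    intro hj
    have ih' := ih (by omega)
    have e1 : n - j = (n - (j + 1)) + 1 := by omega
    have e2 : k - j = (k - (j + 1)) + 1 := by omega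
    have h1 := Nat.add_one_mul_choose_eq (n - (j + 1)) (k - (j + 1))
    rw [← e1, ← e2] at h1
    have h2 : (k - j) * n ≤ k * (n - j) := by
      have h3 : k * j ≤ n * j := Nat.mul_le_mul_right j hkn
      zify [show j ≤ k by omega, show j ≤ n by omega]
      have h3' : (k : ℤ) * j ≤ n * j := by exact_mod_cast h3
      nlinarith
    have h4 : (n - (j + 1)).choose (k - (j + 1)) * n ≤ (n - j).choose (k - j) * k := by
      have h5 : (n - j) * ((n - (j + 1)).choose (k - (j + 1)) * n) ≤
          (n - j) * ((n - j).choose (k - j) * k) := by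
        calc (n - j) * ((n - (j + 1)).choose (k - (j + 1)) * n)
            = ((n - j) * (n - (j + 1)).choose (k - (j + 1))) * n := by ring
          _ = (n - j).choose (k - j) * ((k - j) * n) := by rw [h1]; ring
          _ ≤ (n - j).choose (k - j) * (k * (n - j)) := Nat.mul_le_mul_left _ h2
          _ = _ := by ring
      exact Nat.le_of_mul_le_mul_left h5 (by omega)
    have h6 : ((n - (j + 1)).choose (k - (j + 1)) : ℝ) * n ≤ (n - j).choose (k - j) * k := by
      exact_mod_cast h4
    calc ((n - (j + 1)).choose (k - (j + 1)) : ℝ) * (n : ℝ) ^ (j + 1)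
        = (((n - (j + 1)).choose (k - (j + 1)) : ℝ) * n) * (n : ℝ) ^ j := by ring
      _ ≤ ((n - j).choose (k - j) * k) * (n : ℝ) ^ j :=
          mul_le_mul_of_nonneg_right h6 (by positivity)
      _ = (((n - j).choose (k - j) : ℝ) * (n : ℝ) ^ j) * k := by ring
      _ ≤ (n.choose k * (k : ℝ) ^ j) * k := mul_le_mul_of_nonneg_right ih' (Nat.cast_nonneg _)
      _ = _ := by ring

theorem card_supersets {n k : ℕ} (hkn : k ≤ n) (A : Finset (Fin n)) :
    (((Finset.powersetCard k (Finset.univ : Finset (Fin n))).filter fun K => A ⊆ K).card : ℝ) *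
      (n : ℝ) ^ A.card ≤ n.choose k * (k : ℝ) ^ A.card := by
  rcases Nat.lt_or_ge k A.card with h | h
  · have : ((Finset.powersetCard k (Finset.univ : Finset (Fin n))).filter fun K => A ⊆ K) = ∅ := by
      rw [Finset.filter_eq_empty_iff]
      intro K hK hAK
      rw [Finset.mem_powersetCard] at hK
      have := Finset.card_le_card hAK
      omega
    rw [this]
    simp only [Finset.card_empty, Nat.cast_zero, zero_mul]
    positivity
  · have h1 : ((Finset.powersetCard k (Finset.univ : Finset (Fin n))).filter fun K => A ⊆ K).card ≤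
        (n - A.card).choose (k - A.card) := by
      have h2 : (Finset.powersetCard (k - A.card) (Finset.univ \ A)).card =
          (n - A.card).choose (k - A.card) := by
        rw [Finset.card_powersetCard, Finset.card_sdiff_of_subset (Finset.subset_univ _),
          Finset.card_univ, Fintype.card_fin]
      rw [← h2]
      refine Finset.card_le_card_of_injOn (fun K => K \ A) ?_ ?_
      · intro K hK
        rw [Finset.mem_coe, Finset.mem_filter, Finset.mem_powersetCard] at hK
        rw [Finset.mem_coe, Finset.mem_powersetCard]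
        refine ⟨Finset.sdiff_subset_sdiff (Finset.subset_univ _) le_rfl, ?_⟩
        show (K \ A).card = k - A.card
        rw [Finset.card_sdiff_of_subset hK.2, hK.1.2]
      · intro K hK K' hK' h3
        rw [Finset.mem_coe, Finset.mem_filter] at hK hK'
        have h4 : K \ A = K' \ A := h3
        rw [← Finset.sdiff_union_of_subset hK.2, ← Finset.sdiff_union_of_subset hK'.2, h4]
    have h3 : (((Finset.powersetCard k (Finset.univ : Finset (Fin n))).filter
        fun K => A ⊆ K).card : ℝ) ≤ (n - A.card).choose (k - A.card) := by exact_mod_cast h1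
    exact (mul_le_mul_of_nonneg_right h3 (by positivity)).trans (choose_sub_le hkn _ h)

theorem sum_inter {n k : ℕ} (hkn : k ≤ n) (hn : 0 < n) (S : Finset (Fin n)) (f : ℕ → ℝ)
    (hf : ∀ i, 0 ≤ f i) :
    ∑ K ∈ Finset.powersetCard k (Finset.univ : Finset (Fin n)),
      ∑ A ∈ (K ∩ S).powerset, f A.card ≤
    n.choose k * ∑ A ∈ S.powerset, f A.card * ((k : ℝ) / n) ^ A.card := by
  have hn0 : (0 : ℝ) < n := by exact_mod_cast hn
  have h1 : ∀ K : Finset (Fin n), ∑ A ∈ (K ∩ S).powerset, f A.card =
      ∑ A ∈ S.powerset, if A ⊆ K then f A.card else 0 := by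
    intro K
    rw [← Finset.sum_filter]
    refine Finset.sum_congr ?_ fun _ _ => rfl
    ext A
    rw [Finset.mem_filter, Finset.mem_powerset, Finset.mem_powerset, Finset.subset_inter_iff]
    tauto
  rw [Finset.sum_congr rfl fun K _ => h1 K, Finset.sum_comm, Finset.mul_sum]
  refine Finset.sum_le_sum fun A _ => ?_
  rw [← Finset.sum_filter, Finset.sum_const, nsmul_eq_mul]
  have h2 := card_supersets hkn A
  have h3 : (((Finset.powersetCard k (Finset.univ : Finset (Fin n))).filter
      fun K => A ⊆ K).card : ℝ) ≤ n.choose k * ((k : ℝ) / n) ^ A.card := by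
    rw [div_pow, ← mul_div_assoc, le_div_iff₀ (by positivity)]
    exact h2
  calc _ ≤ (n.choose k * ((k : ℝ) / n) ^ A.card) * f A.card :=
        mul_le_mul_of_nonneg_right h3 (hf _)
    _ = _ := by ring

theorem sub_of_sign {n : ℕ} {C C' : Finset (Fin n × Bool)}
    (e1 : C.image Prod.fst = C'.image Prod.fst)
    (e2 : (C.filter fun l => l.2 = true).image Prod.fst =
      (C'.filter fun l => l.2 = true).image Prod.fst)
    (hC : Set.InjOn Prod.fst (C : Set (Fin n × Bool))) : C ⊆ C' := by
  intro l hl
  obtain ⟨i, b⟩ := l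
  have m1 : i ∈ C'.image Prod.fst := by
    rw [← e1]
    exact Finset.mem_image.mpr ⟨(i, b), hl, rfl⟩
  obtain ⟨⟨i', b'⟩, hl', rfl⟩ := Finset.mem_image.mp m1
  cases b with
  | true =>
    have m2 : i' ∈ (C'.filter fun l => l.2 = true).image Prod.fst := by
      rw [← e2]
      exact Finset.mem_image.mpr ⟨(i', true), Finset.mem_filter.mpr ⟨hl, rfl⟩, rfl⟩
    obtain ⟨⟨i'', b''⟩, hl'', h3⟩ := Finset.mem_image.mp m2
    rw [Finset.mem_filter] at hl''
    have h4 : i'' = i' := h3
    have h5 : b'' = true := hl''.2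
    rw [h4, h5] at hl''
    exact hl''.1
  | false =>
    cases b' with
    | false => exact hl'
    | true =>
      have m2 : i' ∈ (C.filter fun l => l.2 = true).image Prod.fst := by
        rw [e2]
        exact Finset.mem_image.mpr ⟨(i', true), Finset.mem_filter.mpr ⟨hl', rfl⟩, rfl⟩
      obtain ⟨⟨i'', b''⟩, hl'', h3⟩ := Finset.mem_image.mp m2
      rw [Finset.mem_filter] at hl''
      have h4 : i'' = i' := h3
      have h5 : b'' = true := hl''.2
      rw [h4, h5] at hl''
      have := hC hl''.1 hl rfl
      simp at this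

theorem card_fiber {n k : ℕ} (K : Finset (Fin n)) (hK : K.card = k) :
    ((board n k).filter fun C => vars C = K).card ≤ 2 ^ k := by
  rw [← hK, ← Finset.card_powerset]
  refine Finset.card_le_card_of_injOn
    (fun C => (C.filter fun l => l.2 = true).image Prod.fst) ?_ ?_
  · intro C hC
    rw [Finset.mem_coe, Finset.mem_filter] at hC
    rw [Finset.mem_coe, Finset.mem_powerset, ← hC.2]
    exact Finset.image_subset_image (Finset.filter_subset _ _)
  · intro C hC C' hC' h
    rw [Finset.mem_coe, Finset.mem_filter, board, Finset.mem_filter] at hC hC'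
    have e1 : C.image Prod.fst = C'.image Prod.fst := hC.2.trans hC'.2.symm
    have i1 : Set.InjOn Prod.fst (C : Set (Fin n × Bool)) :=
      Finset.card_image_iff.mp (hC.1.2.2.trans hC.1.2.1.symm)
    have i2 : Set.InjOn Prod.fst (C' : Set (Fin n × Bool)) :=
      Finset.card_image_iff.mp (hC'.1.2.2.trans hC'.1.2.1.symm)
    exact Finset.Subset.antisymm (sub_of_sign e1 h i1) (sub_of_sign e1.symm h.symm i2)

theorem sum_board {n k : ℕ} (h : Finset (Fin n) → ℝ) (hh : ∀ K, 0 ≤ h K) :
    ∑ C ∈ board n k, h (vars C) ≤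
      2 ^ k * ∑ K ∈ Finset.powersetCard k (Finset.univ : Finset (Fin n)), h K := by
  have hmap : ∀ C ∈ board n k, vars C ∈ Finset.powersetCard k (Finset.univ : Finset (Fin n)) := by
    intro C hC
    rw [board, Finset.mem_filter] at hC
    rw [Finset.mem_powersetCard]
    exact ⟨Finset.subset_univ _, hC.2.2⟩
  rw [← Finset.sum_fiberwise_of_maps_to hmap, Finset.mul_sum]
  refine Finset.sum_le_sum fun K hK => ?_
  rw [Finset.mem_powersetCard] at hK
  rw [Finset.sum_congr rfl (g := fun _ => h K) (fun C hC => by rw [(Finset.mem_filter.mp hC).2]),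
    Finset.sum_const, nsmul_eq_mul]
  refine mul_le_mul_of_nonneg_right ?_ (hh K)
  exact_mod_cast card_fiber K hK.2

theorem sum_powerset_pow {α : Type} [DecidableEq α] (T : Finset α) (x : ℝ) :
    ∑ A ∈ T.powerset, x ^ A.card = (1 + x) ^ T.card := by
  have := Finset.sum_pow_mul_eq_add_pow x 1 T
  simp only [one_pow, mul_one] at this
  rw [this, add_comm]

theorem sum_powerset_low {α : Type} [DecidableEq α] (T : Finset α) (x : ℝ) (j : ℕ) (hj : j ≤ 1) :
    ∑ A ∈ T.powerset, (if A.card ≤ j then x ^ A.card else 0) =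
      if j = 0 then 1 else 1 + T.card * x := by
  have h1 := Finset.sum_powerset_apply_card (x := T) (fun m => if m ≤ j then x ^ m else 0)
  rw [h1]
  have h2 : ∑ m ∈ Finset.range (T.card + 1), (T.card.choose m) • (if m ≤ j then x ^ m else 0) =
      ∑ m ∈ Finset.range 2, (T.card.choose m) • (if m ≤ j then x ^ m else 0) := by
    have a1 : ∑ m ∈ Finset.range (T.card + 1), (T.card.choose m) • (if m ≤ j then x ^ m else 0) =
        ∑ m ∈ Finset.range (T.card + 2), (T.card.choose m) • (if m ≤ j then x ^ m else 0) := by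
      refine Finset.sum_subset (Finset.range_subset_range.mpr (by omega)) fun m _ hm => ?_
      rw [Finset.mem_range, not_lt] at hm
      rw [Nat.choose_eq_zero_of_lt (by omega), zero_smul]
    have a2 : ∑ m ∈ Finset.range 2, (T.card.choose m) • (if m ≤ j then x ^ m else 0) =
        ∑ m ∈ Finset.range (T.card + 2), (T.card.choose m) • (if m ≤ j then x ^ m else 0) := by
      refine Finset.sum_subset (Finset.range_subset_range.mpr (by omega)) fun m _ hm => ?_
      rw [Finset.mem_range, not_lt] at hm
      rw [if_neg (by omega), smul_zero]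
    rw [a1, a2]
  rw [h2, Finset.sum_range_succ, Finset.sum_range_succ, Finset.sum_range_zero]
  rcases Nat.le_one_iff_eq_zero_or_eq_one.mp hj with rfl | rfl
  · simp
  · simp

/-- The first sum over the board. -/
theorem sum_one {n k : ℕ} (hkn : k ≤ n) (hn : 0 < n) (S : Finset (Fin n))
    (hS : (S.card : ℝ) * k ≤ n) :
    ∑ C ∈ board n k, ((2 : ℝ) ^ (vars C ∩ S).card - 1) ≤
      2 ^ k * n.choose k * (2 * (S.card * k / n)) := by
  have hn0 : (0 : ℝ) < n := by exact_mod_cast hn
  set f : ℕ → ℝ := fun i => if i = 0 then 0 else 1 with hf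
  have hT : ∀ (T : Finset (Fin n)) (x : ℝ),
      ∑ A ∈ T.powerset, f A.card * x ^ A.card = (1 + x) ^ T.card - 1 := by
    intro T x
    have h1 := sum_powerset_low T x 0 (by omega)
    rw [if_pos rfl] at h1
    rw [← sum_powerset_pow, ← h1, ← Finset.sum_sub_distrib]
    refine Finset.sum_congr rfl fun A _ => ?_
    simp only [hf]
    by_cases h : A.card = 0
    · rw [if_pos h, if_pos (by omega), h]; simp
    · rw [if_neg h, if_neg (by omega)]; simp
  have h1 : ∀ C ∈ board n k, ((2 : ℝ) ^ (vars C ∩ S).card - 1) =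
      ∑ A ∈ (vars C ∩ S).powerset, f A.card := by
    intro C _
    have := hT (vars C ∩ S) 1
    simp only [one_pow, mul_one] at this
    rw [this]
    norm_num
  rw [Finset.sum_congr rfl h1]
  have hf0 : ∀ i, 0 ≤ f i := by
    intro i
    simp only [hf]
    split_ifs <;> norm_num
  refine (sum_board (fun K => ∑ A ∈ (K ∩ S).powerset, f A.card)
    (fun K => Finset.sum_nonneg fun A _ => hf0 _)).trans ?_
  rw [mul_assoc]
  refine mul_le_mul_of_nonneg_left ?_ (by positivity)
  refine (sum_inter hkn hn S f hf0).trans ?_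
  refine mul_le_mul_of_nonneg_left ?_ (by positivity)
  rw [hT]
  set y : ℝ := S.card * k / n with hy
  have hy0 : 0 ≤ y := by positivity
  have hy1 : y ≤ 1 := by rw [hy, div_le_one hn0]; exact hS
  have h2 : (1 + (k : ℝ) / n) ^ S.card ≤ Real.exp y := by
    calc (1 + (k : ℝ) / n) ^ S.card ≤ (Real.exp ((k : ℝ) / n)) ^ S.card := by
          refine pow_le_pow_left₀ (by positivity) ?_ _
          rw [add_comm]
          exact Real.add_one_le_exp _
      _ = Real.exp y := by
          rw [← Real.exp_nat_mul, hy]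
          congr 1
          ring
  have h3 := Real.abs_exp_sub_one_sub_id_le (x := y) (by rw [abs_of_nonneg hy0]; exact hy1)
  have h4 := (abs_le.mp h3).2
  nlinarith

/-- The second sum over the board. -/
theorem sum_two {n k : ℕ} (hkn : k ≤ n) (hn : 0 < n) (S : Finset (Fin n))
    (hS : 2 * (S.card : ℝ) * k ≤ n) :
    ∑ C ∈ board n k, (if 2 ≤ (vars C ∩ S).card then (2 : ℝ) ^ (vars C ∩ S).card else 0) ≤
      2 ^ k * n.choose k * (2 * (S.card * k / n)) ^ 2 := by
  have hn0 : (0 : ℝ) < n := by exact_mod_cast hn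
  set f : ℕ → ℝ := fun i => if 2 ≤ i then 2 ^ i else 0 with hf
  have hf0 : ∀ i, 0 ≤ f i := by
    intro i
    simp only [hf]
    split_ifs <;> positivity
  have hT : ∀ (T : Finset (Fin n)) (x : ℝ),
      ∑ A ∈ T.powerset, f A.card * x ^ A.card = (1 + 2 * x) ^ T.card - (1 + T.card * (2 * x)) := by
    intro T x
    have h1 := sum_powerset_low T (2 * x) 1 le_rfl
    rw [if_neg one_ne_zero] at h1
    rw [← sum_powerset_pow, ← h1, ← Finset.sum_sub_distrib]
    refine Finset.sum_congr rfl fun A _ => ?_
    simp only [hf]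
    by_cases h : 2 ≤ A.card
    · rw [if_pos h, if_neg (by omega), mul_pow]; ring
    · rw [if_neg h, if_pos (by omega)]; ring
  have h1 : ∀ C ∈ board n k,
      (if 2 ≤ (vars C ∩ S).card then (2 : ℝ) ^ (vars C ∩ S).card else 0) ≤
      ∑ A ∈ (vars C ∩ S).powerset, f A.card := by
    intro C _
    exact Finset.single_le_sum (f := fun A : Finset (Fin n) => f A.card) (fun A _ => hf0 _)
      (Finset.mem_powerset.mpr le_rfl)
  refine (Finset.sum_le_sum h1).trans ?_
  refine (sum_board (fun K => ∑ A ∈ (K ∩ S).powerset, f A.card)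
    (fun K => Finset.sum_nonneg fun A _ => hf0 _)).trans ?_
  rw [mul_assoc]
  refine mul_le_mul_of_nonneg_left ?_ (by positivity)
  refine (sum_inter hkn hn S f hf0).trans ?_
  refine mul_le_mul_of_nonneg_left ?_ (by positivity)
  rw [hT]
  set y : ℝ := 2 * (S.card * k / n) with hy
  have hy0 : 0 ≤ y := by positivity
  have hy1 : y ≤ 1 := by
    rw [hy, ← mul_div_assoc, div_le_one hn0]
    linarith
  have h2 : (1 + 2 * ((k : ℝ) / n)) ^ S.card ≤ Real.exp y := by
    calc (1 + 2 * ((k : ℝ) / n)) ^ S.card ≤ (Real.exp (2 * ((k : ℝ) / n))) ^ S.card := by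
          refine pow_le_pow_left₀ (by positivity) ?_ _
          rw [add_comm]
          exact Real.add_one_le_exp _
      _ = Real.exp y := by
          rw [← Real.exp_nat_mul, hy]
          congr 1
          ring
  have h3 := Real.abs_exp_sub_one_sub_id_le (x := y) (by rw [abs_of_nonneg hy0]; exact hy1)
  have h4 := (abs_le.mp h3).2
  have h5 : (S.card : ℝ) * (2 * ((k : ℝ) / n)) = y := by rw [hy]; ring
  rw [h5]
  linarith

end Pool.Agent.W_MP_fefad7_co_h72
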