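import Pool.Agent.W_MP_fefad7_co_h72.Transversal

/-!
The Waiter-Client `k`-SAT game.
-/

namespace Pool.Agent.W_MP_fefad7_co_h72

open Filter Topology

/-- The board of the `k`-SAT game: a literal is a pair `(i, b)` (the literal `x_i` if `b = true`
and its negation if `b = false`); a `k`-clause is a set of `k` literals whose variables are
pairwise distinct. -/
def board (n k : ℕ) : Finset (Finset (Fin n × Bool)) :=
  Finset.univ.filter fun C => C.card = k ∧ (C.image Prod.fst).card = k

/-- The conjunction of the clauses in `P` is unsatisfiable: every assignment `a` falsifies all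
literals of some clause. -/
def Unsat {n : ℕ} (P : Finset (Finset (Fin n × Bool))) : Prop :=
  ∀ a : Fin n → Bool, ∃ C ∈ P, ∀ l ∈ C, a l.1 ≠ l.2

/-- The clauses falsified by `a`. -/
def viol {n : ℕ} (a : Fin n → Bool) : Finset (Finset (Fin n × Bool)) :=
  Finset.univ.filter fun C => ∀ l ∈ C, a l.1 ≠ l.2

theorem hits_viol {n : ℕ} (P : Finset (Finset (Fin n × Bool))) :
    Hits (viol (n := n)) P ↔ Unsat P := by
  unfold Hits Unsat viol
  simp only [Finset.mem_filter, Finset.mem_univ, true_and]

theorem unsat_mono {n : ℕ} (P P' : Finset (Finset (Fin n × Bool))) (h : P ⊆ P') (hP : Unsat P) :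
    Unsat P' := fun a => by
  obtain ⟨C, hC, hA⟩ := hP a
  exact ⟨C, h hC, hA⟩

theorem card_viol {n k : ℕ} (a : Fin n → Bool) : n.choose k ≤ (viol a ∩ board n k).card := by
  have h1 : (Finset.powersetCard k (Finset.univ : Finset (Fin n))).card = n.choose k := by
    rw [Finset.card_powersetCard, Finset.card_univ, Fintype.card_fin]
  rw [← h1]
  have hinj : Function.Injective (fun i : Fin n => (i, !a i)) := fun i j h => congrArg Prod.fst h
  refine Finset.card_le_card_of_injOn (fun S => S.image fun i => (i, !a i)) ?_ ?_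
  · intro S hS
    rw [Finset.mem_coe, Finset.mem_powersetCard] at hS
    rw [Finset.mem_coe, Finset.mem_inter, viol, board, Finset.mem_filter, Finset.mem_filter]
    refine ⟨⟨Finset.mem_univ _, ?_⟩, Finset.mem_univ _, ?_, ?_⟩
    · intro l hl
      obtain ⟨i, _, rfl⟩ := Finset.mem_image.mp hl
      simp
    · rw [Finset.card_image_of_injective _ hinj, hS.2]
    · rw [Finset.image_image]
      have : (Prod.fst ∘ fun i : Fin n => (i, !a i)) = id := rfl
      rw [this, Finset.image_id, hS.2]
  · intro S _ S' _ h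
    exact Finset.image_injective hinj h

theorem card_board (n k : ℕ) : (board n k).card ≤ 2 ^ k * n.choose k := by
  have h1 : (((Finset.powersetCard k (Finset.univ : Finset (Fin n)))).sigma
      (fun S => S.powerset)).card = 2 ^ k * n.choose k := by
    rw [Finset.card_sigma]
    have : ∀ S ∈ Finset.powersetCard k (Finset.univ : Finset (Fin n)),
        (Finset.powerset S).card = 2 ^ k := by
      intro S hS
      rw [Finset.mem_powersetCard] at hS
      rw [Finset.card_powerset, hS.2]
    rw [Finset.sum_congr rfl this, Finset.sum_const, Finset.card_powersetCard, Finset.card_univ,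
      Fintype.card_fin, smul_eq_mul, mul_comm]
  rw [← h1]
  refine Finset.card_le_card_of_injOn
    (fun C => ⟨C.image Prod.fst, (C.filter fun l => l.2 = true).image Prod.fst⟩) ?_ ?_
  · intro C hC
    rw [Finset.mem_coe, board, Finset.mem_filter] at hC
    rw [Finset.mem_coe, Finset.mem_sigma, Finset.mem_powersetCard, Finset.mem_powerset]
    exact ⟨⟨Finset.subset_univ _, hC.2.2⟩, Finset.image_subset_image (Finset.filter_subset _ _)⟩
  · intro C hC C' hC' h
    rw [Finset.mem_coe, board, Finset.mem_filter] at hC hC'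
    have e1 : C.image Prod.fst = C'.image Prod.fst := congrArg Sigma.fst h
    have e2 : (C.filter fun l => l.2 = true).image Prod.fst =
        (C'.filter fun l => l.2 = true).image Prod.fst := by
      have := (Sigma.mk.inj_iff.mp h).2
      exact eq_of_heq this
    have i1 : Set.InjOn Prod.fst (C : Set (Fin n × Bool)) :=
      Finset.card_image_iff.mp (hC.2.2.trans hC.2.1.symm)
    have i2 : Set.InjOn Prod.fst (C' : Set (Fin n × Bool)) :=
      Finset.card_image_iff.mp (hC'.2.2.trans hC'.2.1.symm)
    have key : ∀ D D' : Finset (Fin n × Bool), D.image Prod.fst = D'.image Prod.fst →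
        (D.filter fun l => l.2 = true).image Prod.fst =
          (D'.filter fun l => l.2 = true).image Prod.fst →
        Set.InjOn Prod.fst (D : Set (Fin n × Bool)) → D ⊆ D' := by
      intro D D' f1 f2 hD l hl
      obtain ⟨i, b⟩ := l
      have m1 : i ∈ D'.image Prod.fst := by
        rw [← f1]
        exact Finset.mem_image.mpr ⟨(i, b), hl, rfl⟩
      obtain ⟨⟨i', b'⟩, hl', rfl⟩ := Finset.mem_image.mp m1
      cases b with
      | true =>
        have m2 : i' ∈ (D'.filter fun l => l.2 = true).image Prod.fst := by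
          rw [← f2]
          exact Finset.mem_image.mpr ⟨(i', true), Finset.mem_filter.mpr ⟨hl, rfl⟩, rfl⟩
        obtain ⟨⟨i'', b''⟩, hl'', h3⟩ := Finset.mem_image.mp m2
        rw [Finset.mem_filter] at hl''
        have h4 : i'' = i' := h3
        have h5 : b'' = true := hl''.2
        rw [h4, h5] at hl''
        exact hl''.1
      | false =>
        cases b' with
        | false => exact hl'
        | true =>
          have m2 : i' ∈ (D.filter fun l => l.2 = true).image Prod.fst := by
            rw [f2]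
            exact Finset.mem_image.mpr ⟨(i', true), Finset.mem_filter.mpr ⟨hl', rfl⟩, rfl⟩
          obtain ⟨⟨i'', b''⟩, hl'', h3⟩ := Finset.mem_image.mp m2
          rw [Finset.mem_filter] at hl''
          have h4 : i'' = i' := h3
          have h5 : b'' = true := hl''.2
          rw [h4, h5] at hl''
          have := hD hl''.1 hl rfl
          simp at this
    exact Finset.Subset.antisymm (key C C' e1 e2 i1) (key C' C e1.symm e2.symm i2)

theorem waiterWins_congr {X : Type} [DecidableEq X] {q : ℕ} {W W' : Finset X → Prop}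
    (h : ∀ P, W P → W' P) {U P : Finset X} (hw : WaiterWins q W U P) : WaiterWins q W' U P := by
  induction hw with
  | stop U P hU hP => exact WaiterWins.stop U P hU (h P hP)
  | offer U P B hBU hB _ ih => exact WaiterWins.offer U P B hBU hB ih

/-- The growth of `C(n, k) / n`. -/
theorem choose_div_tendsto {k : ℕ} (hk : 2 ≤ k) :
    Tendsto (fun n : ℕ => (n.choose k : ℝ) / n) atTop atTop := by
  have h1 : ∀ᶠ n : ℕ in atTop, ((n : ℝ) - 1) / (k * (k - 1) : ℕ) ≤ (n.choose k : ℝ) / n := by
    filter_upwards [eventually_ge_atTop (2 * k)] with n hn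
    have h2 : (n.choose 2 : ℝ) ≤ n.choose k * (k.choose 2) := by
      have h3 : n.choose k * k.choose 2 = n.choose 2 * (n - 2).choose (k - 2) :=
        Nat.choose_mul hk
      have h4 : 1 ≤ (n - 2).choose (k - 2) := Nat.choose_pos (by omega)
      have h5 : n.choose 2 ≤ n.choose k * k.choose 2 := by
        rw [h3]
        exact Nat.le_mul_of_pos_right _ h4
      exact_mod_cast h5
    rw [Nat.cast_choose_two] at h2
    rw [Nat.cast_choose_two] at h2
    have hn0 : (0 : ℝ) < n := by exact_mod_cast (by omega : 0 < n)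
    have hk0 : (0 : ℝ) < ((k * (k - 1) : ℕ) : ℝ) := by
      exact_mod_cast Nat.mul_pos (by omega) (by omega)
    have e : ((k * (k - 1) : ℕ) : ℝ) = (k : ℝ) * (k - 1) := by
      rw [Nat.cast_mul, Nat.cast_sub (by omega), Nat.cast_one]
    rw [div_le_div_iff₀ hk0 hn0, e]
    nlinarith
  refine tendsto_atTop_mono' _ h1 ?_
  have hk0 : (0 : ℝ) < ((k * (k - 1) : ℕ) : ℝ) := by
    exact_mod_cast Nat.mul_pos (by omega) (by omega)
  exact Tendsto.atTop_div_const hk0
    (tendsto_atTop_add_const_right _ (-1) tendsto_natCast_atTop_atTop)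

/-- **Waiter wins the `k`-SAT game below the threshold predicted by random play.** -/
theorem waiter_sat {k : ℕ} (hk : 2 ≤ k) {ε : ℝ} (hε : 0 < ε) :
    ∀ᶠ n : ℕ in atTop, ∀ q : ℕ, (1 + ε) * (n * Real.log 2) * (q + 1) ≤ n.choose k →
      WaiterWins q Unsat (board n k) ∅ := by
  have hlog : 0 < Real.log 2 := Real.log_pos (by norm_num)
  set ζ : ℝ := ε / (4 * 2 ^ k * (1 + ε)) with hζdef
  have hζ : 0 < ζ := by positivity
  have hlim := choose_div_tendsto hk
  set N := Real.exp ((Real.exp 1 - 1) / ζ) with hN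
  filter_upwards [eventually_gt_atTop 0,
    hlim.eventually_ge_atTop ((1 + ε) * Real.log 2 * (Real.exp 1 ^ 2 / ζ ^ 2 + 2)),
    (tendsto_natCast_atTop_atTop (R := ℝ)).eventually_gt_atTop (2 * N / (ε * Real.log 2))]
    with n hn0 hn1 hn2 q hq
  have hn0' : (0 : ℝ) < n := by exact_mod_cast hn0
  have hden : 0 < (1 + ε) * (n * Real.log 2) := by positivity
  set r : ℕ := ⌊(n.choose k : ℝ) / ((1 + ε) * (n * Real.log 2))⌋₊ with hr
  have hr1 : (r : ℝ) ≤ (n.choose k : ℝ) / ((1 + ε) * (n * Real.log 2)) :=
    Nat.floor_le (by positivity)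
  have hr2 : (n.choose k : ℝ) / ((1 + ε) * (n * Real.log 2)) < r + 1 := Nat.lt_floor_add_one _
  have hqr : q + 1 ≤ r := by
    rw [hr]
    refine Nat.le_floor ?_
    rw [le_div_iff₀ hden]
    push_cast
    linarith
  obtain ⟨q', hq'⟩ : ∃ q', r = q' + 1 := ⟨r - 1, by omega⟩
  have hqq : q ≤ q' := by omega
  refine waiterWins_anti unsat_mono hqq ?_
  refine waiterWins_congr (fun P h => (hits_viol P).mp h) ?_
  have hbig : Real.exp 1 ^ 2 / ζ ^ 2 + 2 ≤ (n.choose k : ℝ) / ((1 + ε) * (n * Real.log 2)) := by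
    rw [le_div_iff₀ hden]
    rw [le_div_iff₀ hn0'] at hn1
    linarith
  have hrpos : (0 : ℝ) < ((q' + 1 : ℕ) : ℝ) := by positivity
  have hrr : ((q' + 1 : ℕ) : ℝ) = r := by rw [hq']
  have hC : (1 + ε) * (n * Real.log 2) ≤ (n.choose k : ℝ) / ((q' + 1 : ℕ) : ℝ) := by
    rw [le_div_iff₀ hrpos, hrr]
    rw [le_div_iff₀ hden] at hr1
    linarith
  refine waiter_transversal (viol (n := n)) hζ ?_ (board n k) (n.choose k) card_viol ?_
  · have h1 : Real.exp 1 ^ 2 / ζ ^ 2 ≤ r := by linarith
    rw [div_le_iff₀ (by positivity)] at h1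
    rw [hrr]
    have : 0 ≤ ζ ^ 2 * r := by positivity
    linarith
  · have h1 : Real.log (Fintype.card (Fin n → Bool)) = n * Real.log 2 := by
      rw [Fintype.card_fun, Fintype.card_bool, Fintype.card_fin, Nat.cast_pow, Real.log_pow,
        Nat.cast_ofNat]
    rw [h1]
    have h2 : 2 * ζ * ((board n k).card : ℝ) / ((q' + 1 : ℕ) : ℝ) ≤
        (ε / (2 * (1 + ε))) * ((n.choose k : ℝ) / ((q' + 1 : ℕ) : ℝ)) := by
      have h3 : ((board n k).card : ℝ) ≤ 2 ^ k * n.choose k := by exact_mod_cast card_board n k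
      rw [← mul_div_assoc (ε / (2 * (1 + ε)))]
      refine div_le_div_of_nonneg_right ?_ hrpos.le
      calc 2 * ζ * ((board n k).card : ℝ) ≤ 2 * ζ * (2 ^ k * n.choose k) :=
            mul_le_mul_of_nonneg_left h3 (by positivity)
        _ = _ := by
            rw [hζdef]
            have : (2 : ℝ) ^ k ≠ 0 := by positivity
            have : (1 + ε) ≠ 0 := by positivity
            field_simp
            ring
    have h4 : N < ε / 2 * (n * Real.log 2) := by
      rw [div_lt_iff₀ (by positivity)] at hn2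
      linarith
    set c := (n.choose k : ℝ) / ((q' + 1 : ℕ) : ℝ) with hc
    have h5 : (1 + ε / 2) * (n * Real.log 2) ≤ (1 - ε / (2 * (1 + ε))) * c := by
      have h6 : 0 < 1 - ε / (2 * (1 + ε)) := by
        rw [sub_pos, div_lt_one (by positivity)]
        linarith
      calc (1 + ε / 2) * (n * Real.log 2) =
            (1 - ε / (2 * (1 + ε))) * ((1 + ε) * (n * Real.log 2)) := by
            field_simp
            ring
        _ ≤ _ := mul_le_mul_of_nonneg_left hC h6.le
    linarith

open Classical in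
/-- The threshold bias `b^{WC}(n, k)`: the least bias `q ≥ 1` for which Waiter cannot win. -/
noncomputable def bWC (n k : ℕ) : ℕ := sInf {q | 1 ≤ q ∧ ¬ WaiterWins q Unsat (board n k) ∅}

theorem bWC_spec (n k : ℕ) : 1 ≤ bWC n k ∧ ¬ WaiterWins (bWC n k) Unsat (board n k) ∅ := by
  have hne : {q | 1 ≤ q ∧ ¬ WaiterWins q Unsat (board n k) ∅}.Nonempty := by
    refine ⟨(board n k).card + 1, by omega, fun h => ?_⟩
    cases h with
    | stop _ _ _ hP =>
      obtain ⟨C, hC, _⟩ := hP fun _ => true
      simp at hC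
    | offer _ _ B hB hBc _ =>
      have := Finset.card_le_card hB
      omega
  exact Nat.sInf_mem hne

theorem threshold {k : ℕ} (hk : 2 ≤ k) {ε : ℝ} (hε : 0 < ε) :
    ∀ᶠ n : ℕ in atTop,
      1 / (n : ℝ) * n.choose k * ((bWC n k : ℝ))⁻¹ / Real.log 2 ≤ 1 + ε := by
  have hlog : 0 < Real.log 2 := Real.log_pos (by norm_num)
  have hε2 : 0 < ε / 2 := by positivity
  have hlim := choose_div_tendsto hk
  filter_upwards [eventually_gt_atTop 0, waiter_sat hk hε2,
    hlim.eventually_ge_atTop ((1 + ε / 2) * Real.log 2 * ((1 + ε / 2) / (ε / 2) + 1))]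
    with n hn0 hn1 hn2
  have hn0' : (0 : ℝ) < n := by exact_mod_cast hn0
  obtain ⟨hb1, hb2⟩ := bWC_spec n k
  set b := bWC n k with hb
  have hb0 : (0 : ℝ) < b := by exact_mod_cast hb1
  have h1 : (n.choose k : ℝ) < (1 + ε / 2) * (n * Real.log 2) * (b + 1) := by
    by_contra h
    exact hb2 (hn1 b (not_lt.mp h))
  have h2 : (1 + ε / 2) / (ε / 2) + 1 < (b : ℝ) + 1 := by
    rw [le_div_iff₀ hn0'] at hn2
    have h3 : (1 + ε / 2) * (n * Real.log 2) * ((1 + ε / 2) / (ε / 2) + 1) <
        (1 + ε / 2) * (n * Real.log 2) * (b + 1) := by linarith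
    exact lt_of_mul_lt_mul_left h3 (by positivity)
  have h3 : (1 + ε / 2) ≤ ε / 2 * b := by
    have : (1 + ε / 2) / (ε / 2) < b := by linarith
    rw [div_lt_iff₀ hε2] at this
    linarith
  have h4 : (1 + ε / 2) * ((b : ℝ) + 1) ≤ (1 + ε) * b := by nlinarith
  rw [div_le_iff₀ hlog]
  have h5 : 1 / (n : ℝ) * n.choose k * ((b : ℝ))⁻¹ = (n.choose k : ℝ) / (n * b) := by
    field_simp
  rw [h5, div_le_iff₀ (by positivity)]
  calc (n.choose k : ℝ) ≤ (1 + ε / 2) * (n * Real.log 2) * (b + 1) := h1.le
    _ = (n * Real.log 2) * ((1 + ε / 2) * (b + 1)) := by ring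
    _ ≤ (n * Real.log 2) * ((1 + ε) * b) := mul_le_mul_of_nonneg_left h4 (by positivity)
    _ = _ := by ring

end Pool.Agent.W_MP_fefad7_co_h72
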