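import Pool.Agent.W_MP_fefad7_co_h72.WCFinal
set_option linter.unusedSectionVars false

/-!
The threshold biases.
-/

namespace Pool.Agent.W_MP_fefad7_co_h72

open Filter Topology

open Classical in
/-- The threshold bias `b^{CW}(n, k)`: the least bias `q ≥ 1` for which Waiter can win. -/
noncomputable def bCW (n k : ℕ) : ℕ := sInf {q | 1 ≤ q ∧ WaiterWinsCW q Unsat (board n k) ∅}

theorem bCW_spec {n k : ℕ} (hk : 1 ≤ k) :
    1 ≤ bCW n k ∧ WaiterWinsCW (bCW n k) Unsat (board n k) ∅ := by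
  have hne : {q | 1 ≤ q ∧ WaiterWinsCW q Unsat (board n k) ∅}.Nonempty :=
    ⟨2 * (n - 1).choose (k - 1) + 1, by omega, waiter_cw hk (by omega)⟩
  exact Nat.sInf_mem hne

theorem bCW_le {n k : ℕ} (hk : 1 ≤ k) (hkn : k ≤ n) : bCW n k ≤ 2 * (n - 1).choose (k - 1) := by
  refine Nat.sInf_le ⟨?_, waiter_cw hk (by omega)⟩
  have : 0 < (n - 1).choose (k - 1) := Nat.choose_pos (by omega)
  omega

theorem threshold_cw_upper {k : ℕ} (hk : 2 ≤ k) {ε : ℝ} (hε : 0 < ε) :
    ∀ᶠ n : ℕ in atTop,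
      1 / (n : ℝ) * n.choose k * ((bCW n k : ℝ))⁻¹ / Real.log 2 ≤ 1 + ε := by
  have hlog : 0 < Real.log 2 := Real.log_pos (by norm_num)
  have hlim := choose_div_tendsto hk
  filter_upwards [eventually_gt_atTop 0, hlim.eventually_ge_atTop (Real.log 2 * (1 / ε + 1))]
    with n hn0 hn2
  have hn0' : (0 : ℝ) < n := by exact_mod_cast hn0
  obtain ⟨hb1, hb2⟩ := bCW_spec (n := n) (k := k) (by omega)
  set b := bCW n k with hb
  have hb0 : (0 : ℝ) < b := by exact_mod_cast hb1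
  have h1 : (n.choose k : ℝ) ≤ n * Real.log 2 * (b + 1) := by
    by_contra h
    exact client_sat (not_le.mp h) hb2
  have h2 : 1 / ε + 1 ≤ (b : ℝ) + 1 := by
    rw [le_div_iff₀ hn0'] at hn2
    have h3 : (n * Real.log 2) * (1 / ε + 1) ≤ (n * Real.log 2) * (b + 1) := by linarith
    exact le_of_mul_le_mul_left h3 (by positivity)
  have h3 : 1 ≤ ε * b := by
    have : 1 / ε ≤ b := by linarith
    rw [div_le_iff₀ hε] at this
    linarith
  rw [div_le_iff₀ hlog]
  have h5 : 1 / (n : ℝ) * n.choose k * ((b : ℝ))⁻¹ = (n.choose k : ℝ) / (n * b) := by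
    field_simp
  rw [h5, div_le_iff₀ (by positivity)]
  calc (n.choose k : ℝ) ≤ (n * Real.log 2) * (b + 1) := h1
    _ ≤ (n * Real.log 2) * ((1 + ε) * b) := by
        refine mul_le_mul_of_nonneg_left ?_ (by positivity)
        linarith
    _ = _ := by ring

theorem threshold_cw_lower {k : ℕ} (hk : 2 ≤ k) :
    ∀ᶠ n : ℕ in atTop,
      1 / (2 * k * Real.log 2) ≤ 1 / (n : ℝ) * n.choose k * ((bCW n k : ℝ))⁻¹ / Real.log 2 := by
  have hlog : 0 < Real.log 2 := Real.log_pos (by norm_num)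
  have hk0 : (0 : ℝ) < k := by exact_mod_cast (by omega : 0 < k)
  filter_upwards [eventually_ge_atTop k] with n hn
  have hn0' : (0 : ℝ) < n := by exact_mod_cast (by omega : 0 < n)
  have hb1 := (bCW_spec (n := n) (k := k) (by omega)).1
  have hb2 := bCW_le (n := n) (k := k) (by omega) hn
  set b := bCW n k with hb
  have hb0 : (0 : ℝ) < b := by exact_mod_cast hb1
  have h1 : (n : ℝ) * (n - 1).choose (k - 1) = n.choose k * k := by
    have h := Nat.add_one_mul_choose_eq (n - 1) (k - 1)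
    rw [show n - 1 + 1 = n by omega, show k - 1 + 1 = k by omega] at h
    exact_mod_cast h
  have h2 : (b : ℝ) ≤ 2 * (n - 1).choose (k - 1) := by exact_mod_cast hb2
  have h3 : (n : ℝ) * b ≤ 2 * (n.choose k * k) := by
    calc (n : ℝ) * b ≤ n * (2 * (n - 1).choose (k - 1)) := mul_le_mul_of_nonneg_left h2 hn0'.le
      _ = 2 * (n * (n - 1).choose (k - 1)) := by ring
      _ = _ := by rw [h1]
  have h5 : 1 / (n : ℝ) * n.choose k * ((b : ℝ))⁻¹ = (n.choose k : ℝ) / (n * b) := by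
    field_simp
  rw [h5, div_div, div_le_div_iff₀ (by positivity) (by positivity)]
  have h6 := mul_le_mul_of_nonneg_right h3 hlog.le
  calc 1 * (n * b * Real.log 2) = n * b * Real.log 2 := by ring
    _ ≤ 2 * (n.choose k * k) * Real.log 2 := h6
    _ = _ := by ring

theorem threshold_wc_lower {k : ℕ} (hk : 12 ≤ k) :
    ∀ᶠ n : ℕ in atTop,
      1 / (22 * (k : ℝ) ^ 2) ≤ 1 / (n : ℝ) * n.choose k * ((bWC n k : ℝ))⁻¹ / Real.log 2 := by
  have hlog : 0 < Real.log 2 := Real.log_pos (by norm_num)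
  have hk0 : (12 : ℝ) ≤ k := by exact_mod_cast hk
  have hlim := choose_div_tendsto (k := k) (by omega)
  filter_upwards [eventually_gt_atTop 0, client_wc_sat hk, hlim.eventually_ge_atTop 1]
    with n hn0 hn1 hn2
  have hn0' : (0 : ℝ) < n := by exact_mod_cast hn0
  rw [le_div_iff₀ hn0', one_mul] at hn2
  have hb1 := (bWC_spec n k).1
  have hb0 : (0 : ℝ) < bWC n k := by exact_mod_cast hb1
  set q : ℕ := ⌈22 * (k : ℝ) ^ 2 * n.choose k / n⌉₊ with hq
  have hC0 : (0 : ℝ) < n.choose k := by linarith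
  have hq1 : 22 * (k : ℝ) ^ 2 * n.choose k / n ≤ q := Nat.le_ceil _
  have hq2 : (q : ℝ) < 22 * (k : ℝ) ^ 2 * n.choose k / n + 1 := Nat.ceil_lt_add_one (by positivity)
  have hqpos : 1 ≤ q := Nat.one_le_iff_ne_zero.mpr (by
    rw [hq]
    have : 0 < ⌈22 * (k : ℝ) ^ 2 * n.choose k / n⌉₊ := Nat.ceil_pos.mpr (by positivity)
    omega)
  have hbq : bWC n k ≤ q := by
    refine Nat.sInf_le ⟨hqpos, hn1 q ?_⟩
    rw [div_le_iff₀ hn0'] at hq1
    linarith
  have hbq' : (bWC n k : ℝ) ≤ q := by exact_mod_cast hbq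
  set b := bWC n k with hb
  have h3 : (n : ℝ) * b ≤ 22 * (k : ℝ) ^ 2 * n.choose k + n := by
    have h4 : (n : ℝ) * (22 * (k : ℝ) ^ 2 * n.choose k / n + 1) =
        22 * (k : ℝ) ^ 2 * n.choose k + n := by field_simp
    rw [← h4]
    exact mul_le_mul_of_nonneg_left (by linarith) hn0'.le
  have h5 : 1 / (n : ℝ) * n.choose k * ((b : ℝ))⁻¹ = (n.choose k : ℝ) / (n * b) := by
    field_simp
  rw [h5, div_div, div_le_div_iff₀ (by positivity) (by positivity)]
  have hl := Real.log_two_lt_d9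
  have h6 : (n : ℝ) * b * Real.log 2 ≤ (22 * (k : ℝ) ^ 2 * n.choose k + n) * Real.log 2 :=
    mul_le_mul_of_nonneg_right h3 hlog.le
  have h7 : (22 * (k : ℝ) ^ 2 * n.choose k + n) * Real.log 2 ≤ 22 * (k : ℝ) ^ 2 * n.choose k := by
    have h8 : (22 * (k : ℝ) ^ 2 * n.choose k + n) ≤ 22 * (k : ℝ) ^ 2 * n.choose k * 1.01 := by
      have h9 : (1 : ℝ) ≤ 0.22 * (k : ℝ) ^ 2 := by nlinarith
      have h10 : (n : ℝ) * 1 ≤ n.choose k * (0.22 * (k : ℝ) ^ 2) :=
        mul_le_mul hn2 h9 (by norm_num) (by linarith)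
      linarith
    have h11 : 0 ≤ 22 * (k : ℝ) ^ 2 * n.choose k := by positivity
    calc (22 * (k : ℝ) ^ 2 * n.choose k + n) * Real.log 2 ≤
          (22 * (k : ℝ) ^ 2 * n.choose k * 1.01) * 0.7 :=
          mul_le_mul h8 (by linarith) hlog.le (by positivity)
      _ ≤ _ := by linarith
  linarith

end Pool.Agent.W_MP_fefad7_co_h72
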