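import Pool.Agent.W_MP_fefad7_co_h72.Game
set_option linter.unusedSectionVars false

/-!
A sharp criterion for Waiter in the transversal game.
-/

namespace Pool.Agent.W_MP_fefad7_co_h72

section
variable {X Ω : Type} [DecidableEq X] [Fintype Ω] (A : Ω → Finset X)

/-- There is a batch for which Client's choice does not matter. -/
theorem exists_batch (w : Ω → ℝ) (hw : ∀ α, 0 ≤ w α) {ζ : ℝ} (hζ : 0 < ζ) {r : ℕ} (hr : 0 < r)
    (R : Finset X) (hR : Real.exp ((Real.exp 1 - 1) / ζ) * r ≤ R.card)
    (hr2 : Real.exp 1 ^ 2 ≤ ζ ^ 2 * (2 * r)) (hS : 0 < ∑ α, w α) :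
    ∃ B ⊆ R, B.card = r ∧ ∀ C ∈ B,
      ∑ α, w α * ((1 - ind A C α) * Real.exp (th A B α)) ≤ (1 + 2 * ζ) * ∑ α, w α := by
  have hr0 : (0 : ℝ) < r := by exact_mod_cast hr
  have hRne : R.Nonempty := by
    rw [← Finset.card_pos]
    have : (0 : ℝ) < R.card := lt_of_lt_of_le (by positivity) hR
    exact_mod_cast this
  obtain ⟨G, hGR, _, hGc, hG⟩ := exists_group A w hw hζ R hRne
  have h1 : (r : ℝ) ≤ G.card := by
    refine le_trans ?_ (hGc hS)
    rw [Real.exp_neg]
    rw [← div_eq_mul_inv, le_div_iff₀ (Real.exp_pos _)]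
    linarith
  obtain ⟨B, hBG, hBr, hB⟩ := exists_sample A w hw G hr (by exact_mod_cast h1)
  refine ⟨B, hBG.trans hGR, hBr, fun C hC => ?_⟩
  set S := ∑ α, w α with hSdef
  -- comparison of the exponentials
  have h2 : ∀ α, (1 - ind A C α) * Real.exp (th A B α) ≤
      (1 - ind A C α) * Real.exp (th A G α) + Real.exp 1 * |th A B α - th A G α| := by
    intro α
    have a1 := ind_nonneg A C α
    have a2 := ind_le_one A C α
    have b1 := th_le_one A B α
    have b2 := th_le_one A G α
    have h3 : Real.exp (th A B α) - Real.exp (th A G α) ≤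
        Real.exp 1 * |th A B α - th A G α| := by
      rcases le_total (th A B α) (th A G α) with h | h
      · have := Real.exp_le_exp.mpr h
        have h5 : 0 ≤ Real.exp 1 * |th A B α - th A G α| := by positivity
        linarith
      · rw [abs_of_nonneg (by linarith)]
        have h4 := Real.add_one_le_exp (th A G α - th A B α)
        have h5 : Real.exp (th A G α) =
            Real.exp (th A B α) * Real.exp (th A G α - th A B α) := by
          rw [← Real.exp_add]; congr 1; ring
        rw [h5]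
        have h6 := mul_le_mul_of_nonneg_left h4 (Real.exp_pos (th A B α)).le
        have h7 : Real.exp (th A B α) * (th A B α - th A G α) ≤
            Real.exp 1 * (th A B α - th A G α) :=
          mul_le_mul_of_nonneg_right (Real.exp_le_exp.mpr b1) (by linarith)
        linarith
    have h8 : 0 ≤ Real.exp 1 * |th A B α - th A G α| := by positivity
    nlinarith
  have h9 : ∑ α, w α * |th A B α - th A G α| ≤ ζ / Real.exp 1 * S := by
    have h10 : (∑ α, w α * |th A B α - th A G α|) ^ 2 ≤
        (∑ α, w α) * ∑ α, w α * (th A B α - th A G α) ^ 2 := by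
      have := Finset.sum_mul_sq_le_sq_mul_sq Finset.univ (fun α => Real.sqrt (w α))
        (fun α => Real.sqrt (w α) * |th A B α - th A G α|)
      have e1 : ∀ α, Real.sqrt (w α) * (Real.sqrt (w α) * |th A B α - th A G α|) =
          w α * |th A B α - th A G α| := by
        intro α
        rw [← mul_assoc, Real.mul_self_sqrt (hw α)]
      have e2 : ∀ α, (Real.sqrt (w α)) ^ 2 = w α := fun α => Real.sq_sqrt (hw α)
      have e3 : ∀ α, (Real.sqrt (w α) * |th A B α - th A G α|) ^ 2 =
          w α * (th A B α - th A G α) ^ 2 := by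
        intro α
        rw [mul_pow, Real.sq_sqrt (hw α), sq_abs]
      simp only [e1, e2, e3] at this
      exact this
    have h11 : (∑ α, w α * |th A B α - th A G α|) ^ 2 ≤ (ζ / Real.exp 1 * S) ^ 2 := by
      refine h10.trans ?_
      have h12 : S * ∑ α, w α * (th A B α - th A G α) ^ 2 ≤ S * (S / (2 * r)) :=
        mul_le_mul_of_nonneg_left hB hS.le
      refine h12.trans ?_
      have he : 0 < Real.exp 1 := Real.exp_pos 1
      have h13 : 1 / (2 * (r : ℝ)) ≤ (ζ / Real.exp 1) ^ 2 := by
        rw [div_pow, div_le_div_iff₀ (by positivity) (by positivity)]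
        linarith
      calc S * (S / (2 * r)) = S ^ 2 * (1 / (2 * (r : ℝ))) := by ring
        _ ≤ S ^ 2 * (ζ / Real.exp 1) ^ 2 := mul_le_mul_of_nonneg_left h13 (by positivity)
        _ = _ := by ring
    exact le_of_sq_le_sq h11 (by positivity)
  calc ∑ α, w α * ((1 - ind A C α) * Real.exp (th A B α))
      ≤ ∑ α, w α * ((1 - ind A C α) * Real.exp (th A G α) +
          Real.exp 1 * |th A B α - th A G α|) :=
        Finset.sum_le_sum fun α _ => mul_le_mul_of_nonneg_left (h2 α) (hw α)
    _ = ∑ α, w α * ((1 - ind A C α) * Real.exp (th A G α)) +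
          Real.exp 1 * ∑ α, w α * |th A B α - th A G α| := by
        rw [Finset.mul_sum, ← Finset.sum_add_distrib]
        refine Finset.sum_congr rfl fun α _ => ?_
        ring
    _ ≤ (1 + ζ) * S + Real.exp 1 * (ζ / Real.exp 1 * S) :=
        add_le_add (hG C (hBG hC)) (mul_le_mul_of_nonneg_left h9 (Real.exp_pos 1).le)
    _ = _ := by
        have he : Real.exp 1 ≠ 0 := (Real.exp_pos 1).ne'
        field_simp
        ring

/-- `Client's` set meets every `A α`. -/
def Hits (P : Finset X) : Prop := ∀ α, ∃ C ∈ P, C ∈ A α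

theorem hits_mono (P P' : Finset X) (h : P ⊆ P') (hP : Hits A P) : Hits A P' := fun α => by
  obtain ⟨C, hC, hA⟩ := hP α
  exact ⟨C, h hC, hA⟩

open Classical in
/-- The weight of `α`: zero if `A α` is met by `P`. -/
noncomputable def wt (r : ℕ) (U P : Finset X) (α : Ω) : ℝ :=
  if ∃ C ∈ P, C ∈ A α then 0 else Real.exp (-(((A α ∩ U).card : ℝ) / r))

theorem wt_nonneg (r : ℕ) (U P : Finset X) (α : Ω) : 0 ≤ wt A r U P α := by
  unfold wt
  split_ifs
  · exact le_rfl
  · exact (Real.exp_pos _).le

theorem wt_step {r : ℕ} (U P B : Finset X) (hB : B ⊆ U) (hBr : B.card = r) (C : X) (α : Ω) :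
    wt A r (U \ B) (insert C P) α =
      wt A r U P α * ((1 - ind A C α) * Real.exp (th A B α)) := by
  unfold wt
  by_cases h1 : ∃ D ∈ P, D ∈ A α
  · obtain ⟨D, hD, hDA⟩ := h1
    rw [if_pos ⟨D, Finset.mem_insert_of_mem hD, hDA⟩, if_pos ⟨D, hD, hDA⟩, zero_mul]
  · rw [if_neg h1]
    by_cases h2 : C ∈ A α
    · rw [if_pos ⟨C, Finset.mem_insert_self C P, h2⟩]
      simp [ind, h2]
    · have h3 : ¬ ∃ D ∈ insert C P, D ∈ A α := by
        rintro ⟨D, hD, hDA⟩
        rcases Finset.mem_insert.mp hD with rfl | hD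
        · exact h2 hDA
        · exact h1 ⟨D, hD, hDA⟩
      rw [if_neg h3]
      simp only [ind, h2, if_false, sub_zero, one_mul]
      rw [← Real.exp_add]
      congr 1
      have h4 : ((A α ∩ U).card : ℝ) = (A α ∩ (U \ B)).card + (A α ∩ B).card := by
        rw [← Nat.cast_add, ← Finset.card_union_of_disjoint]
        · congr 2
          rw [← Finset.inter_union_distrib_left, Finset.sdiff_union_of_subset hB]
        · exact Disjoint.mono Finset.inter_subset_right Finset.inter_subset_right
            Finset.sdiff_disjoint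
      rw [th, hBr, h4]
      ring

/-- The potential argument. -/
theorem waiter_of_potential {ζ : ℝ} (hζ : 0 < ζ) {q : ℕ}
    (hr2 : Real.exp 1 ^ 2 ≤ ζ ^ 2 * (2 * ((q + 1 : ℕ) : ℝ))) :
    ∀ (m : ℕ) (U P : Finset X), U.card ≤ m →
      (∑ α, wt A (q + 1) U P α) * Real.exp (2 * ζ * U.card / ((q + 1 : ℕ) : ℝ)) <
        Real.exp (-Real.exp ((Real.exp 1 - 1) / ζ)) →
      WaiterWins q (Hits A) U P := by
  have hr0 : (0 : ℝ) < ((q + 1 : ℕ) : ℝ) := by positivity
  set N := Real.exp ((Real.exp 1 - 1) / ζ) with hN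
  intro m
  induction m with
  | zero =>
    intro U P hU hpot
    have hU0 : U = ∅ := Finset.card_eq_zero.mp (by omega)
    subst hU0
    refine WaiterWins.stop _ _ (by simp) fun α => ?_
    by_contra hα
    have h1 : Real.exp 0 ≤ ∑ α, wt A (q + 1) ∅ P α := by
      have h2 : wt A (q + 1) ∅ P α = Real.exp 0 := by
        unfold wt
        rw [if_neg hα]
        simp
      rw [← h2]
      exact Finset.single_le_sum (fun α _ => wt_nonneg A (q + 1) ∅ P α) (Finset.mem_univ α)
    have h3 : Real.exp (-N) < 1 := by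
      rw [← Real.exp_zero]
      exact Real.exp_lt_exp.mpr (by have := Real.exp_pos ((Real.exp 1 - 1) / ζ); linarith)
    simp at hpot h1
    linarith
  | succ m ih =>
    intro U P hU hpot
    by_cases hbig : N * ((q + 1 : ℕ) : ℝ) ≤ U.card
    · rcases (Finset.sum_nonneg fun α _ => wt_nonneg A (q + 1) U P α).lt_or_eq with hS | hS
      · obtain ⟨B, hBU, hBr, hB⟩ := exists_batch A (wt A (q + 1) U P)
          (wt_nonneg A (q + 1) U P) hζ (Nat.succ_pos q) U hbig hr2 hS
        refine WaiterWins.offer U P B hBU hBr fun C hC => ih _ _ ?_ ?_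
        · rw [Finset.card_sdiff_of_subset hBU]
          omega
        · have h1 : ∑ α, wt A (q + 1) (U \ B) (insert C P) α ≤
              (1 + 2 * ζ) * ∑ α, wt A (q + 1) U P α := by
            refine le_trans (le_of_eq ?_) (hB C hC)
            exact Finset.sum_congr rfl fun α _ => wt_step A U P B hBU hBr C α
          have h2 : ((U \ B).card : ℝ) = U.card - ((q + 1 : ℕ) : ℝ) := by
            rw [Finset.card_sdiff_of_subset hBU, Nat.cast_sub (Finset.card_le_card hBU), hBr]
          have h3 : 2 * ζ * ((U \ B).card : ℝ) / ((q + 1 : ℕ) : ℝ) =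
              2 * ζ * U.card / ((q + 1 : ℕ) : ℝ) + (-(2 * ζ)) := by
            rw [h2]
            field_simp
            ring
          rw [h3, Real.exp_add]
          refine lt_of_le_of_lt ?_ hpot
          have h4 : (1 + 2 * ζ) * Real.exp (-(2 * ζ)) ≤ 1 := by
            have h5 := Real.add_one_le_exp (2 * ζ)
            have h6 : (1 + 2 * ζ) * Real.exp (-(2 * ζ)) ≤
                Real.exp (2 * ζ) * Real.exp (-(2 * ζ)) :=
              mul_le_mul_of_nonneg_right (by linarith) (Real.exp_pos _).le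
            rwa [← Real.exp_add, add_neg_cancel, Real.exp_zero] at h6
          calc (∑ α, wt A (q + 1) (U \ B) (insert C P) α) *
                (Real.exp (2 * ζ * U.card / ((q + 1 : ℕ) : ℝ)) * Real.exp (-(2 * ζ)))
              ≤ ((1 + 2 * ζ) * ∑ α, wt A (q + 1) U P α) *
                (Real.exp (2 * ζ * U.card / ((q + 1 : ℕ) : ℝ)) * Real.exp (-(2 * ζ))) :=
                mul_le_mul_of_nonneg_right h1 (by positivity)
            _ = ((1 + 2 * ζ) * Real.exp (-(2 * ζ))) * ((∑ α, wt A (q + 1) U P α) *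
                Real.exp (2 * ζ * U.card / ((q + 1 : ℕ) : ℝ))) := by ring
            _ ≤ 1 * ((∑ α, wt A (q + 1) U P α) *
                Real.exp (2 * ζ * U.card / ((q + 1 : ℕ) : ℝ))) :=
                mul_le_mul_of_nonneg_right h4 (mul_nonneg hS.le (Real.exp_pos _).le)
            _ = _ := one_mul _
      · -- everything is hit already
        refine waiterWins_of_win (hits_mono A) q _ U P hU fun α => ?_
        by_contra hα
        have h2 : wt A (q + 1) U P α = Real.exp (-(((A α ∩ U).card : ℝ) / ((q + 1 : ℕ) : ℝ))) := by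
          unfold wt
          rw [if_neg hα]
        have h3 := (Finset.sum_eq_zero_iff_of_nonneg
          (fun α _ => wt_nonneg A (q + 1) U P α)).mp hS.symm α (Finset.mem_univ α)
        rw [h2] at h3
        exact (Real.exp_pos _).ne' h3
    · refine waiterWins_of_win (hits_mono A) q _ U P hU fun α => ?_
      by_contra hα
      push Not at hbig
      have h2 : wt A (q + 1) U P α = Real.exp (-(((A α ∩ U).card : ℝ) / ((q + 1 : ℕ) : ℝ))) := by
        unfold wt
        rw [if_neg hα]
      have h3 : Real.exp (-N) ≤ wt A (q + 1) U P α := by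
        rw [h2]
        refine Real.exp_le_exp.mpr (neg_le_neg ?_)
        rw [div_le_iff₀ hr0]
        have h4 : ((A α ∩ U).card : ℝ) ≤ U.card := by
          exact_mod_cast Finset.card_le_card Finset.inter_subset_right
        linarith
      have h5 : wt A (q + 1) U P α ≤ ∑ α, wt A (q + 1) U P α :=
        Finset.single_le_sum (fun α _ => wt_nonneg A (q + 1) U P α) (Finset.mem_univ α)
      have h6 : 1 ≤ Real.exp (2 * ζ * U.card / ((q + 1 : ℕ) : ℝ)) :=
        Real.one_le_exp (by positivity)
      have h7 : 0 ≤ ∑ α, wt A (q + 1) U P α :=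
        Finset.sum_nonneg fun α _ => wt_nonneg A (q + 1) U P α
      nlinarith

/-- Waiter's criterion: if every `A α` has at least `s` elements in the board `U`. -/
theorem waiter_transversal {ζ : ℝ} (hζ : 0 < ζ) {q : ℕ}
    (hr2 : Real.exp 1 ^ 2 ≤ ζ ^ 2 * (2 * ((q + 1 : ℕ) : ℝ))) (U : Finset X) (s : ℕ)
    (hs : ∀ α, s ≤ (A α ∩ U).card)
    (h : Real.log (Fintype.card Ω) + 2 * ζ * U.card / ((q + 1 : ℕ) : ℝ) +
      Real.exp ((Real.exp 1 - 1) / ζ) < s / ((q + 1 : ℕ) : ℝ)) :
    WaiterWins q (Hits A) U ∅ := by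
  have hr0 : (0 : ℝ) < ((q + 1 : ℕ) : ℝ) := by positivity
  refine waiter_of_potential A hζ hr2 U.card U ∅ le_rfl ?_
  rcases Nat.eq_zero_or_pos (Fintype.card Ω) with h0 | h0
  · have : IsEmpty Ω := Fintype.card_eq_zero_iff.mp h0
    simp [Real.exp_pos]
  · have h1 : ∑ α, wt A (q + 1) U ∅ α ≤
        Fintype.card Ω * Real.exp (-((s : ℝ) / ((q + 1 : ℕ) : ℝ))) := by
      calc ∑ α, wt A (q + 1) U ∅ α ≤ ∑ _α : Ω, Real.exp (-((s : ℝ) / ((q + 1 : ℕ) : ℝ))) := by
            refine Finset.sum_le_sum fun α _ => ?_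
            unfold wt
            rw [if_neg (by simp)]
            refine Real.exp_le_exp.mpr (neg_le_neg ?_)
            have : (s : ℝ) ≤ (A α ∩ U).card := by exact_mod_cast hs α
            exact div_le_div_of_nonneg_right this hr0.le
        _ = _ := by rw [Finset.sum_const, nsmul_eq_mul, Finset.card_univ]
    have hc : (0 : ℝ) < Fintype.card Ω := by exact_mod_cast h0
    calc (∑ α, wt A (q + 1) U ∅ α) * Real.exp (2 * ζ * U.card / ((q + 1 : ℕ) : ℝ))
        ≤ (Fintype.card Ω * Real.exp (-((s : ℝ) / ((q + 1 : ℕ) : ℝ)))) *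
          Real.exp (2 * ζ * U.card / ((q + 1 : ℕ) : ℝ)) :=
          mul_le_mul_of_nonneg_right h1 (Real.exp_pos _).le
      _ = Real.exp (Real.log (Fintype.card Ω) + -((s : ℝ) / ((q + 1 : ℕ) : ℝ)) +
          2 * ζ * U.card / ((q + 1 : ℕ) : ℝ)) := by
          rw [Real.exp_add, Real.exp_add, Real.exp_log hc]
      _ < _ := Real.exp_lt_exp.mpr (by linarith)

end

end Pool.Agent.W_MP_fefad7_co_h72
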