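import Pool.Agent.W_MP_fefad7_co_h72.WCUpper
set_option linter.unusedSectionVars false

/-!
Client wins the Waiter-Client `k`-SAT game when `q` is at least `22 k^2 C(n, k) / n`.
-/

namespace Pool.Agent.W_MP_fefad7_co_h72

open Filter Topology

theorem pow_lower {k : ℕ} (hk : 12 ≤ k) : 22 * k * (k + 3) ≤ 2 ^ k := by
  induction k, hk using Nat.le_induction with
  | base => norm_num
  | succ k hk ih =>
    rw [pow_succ]
    nlinarith

/-- The number `d`. -/
noncomputable def dd (k : ℕ) : ℝ := 2 ^ k / (22 * k)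

theorem dd_lower {k : ℕ} (hk : 12 ≤ k) : (k : ℝ) + 3 ≤ dd k := by
  have hk0 : (0 : ℝ) < k := by exact_mod_cast (by omega : 0 < k)
  unfold dd
  rw [le_div_iff₀ (by positivity)]
  have := pow_lower hk
  have h : (22 * (k : ℝ) * (k + 3)) ≤ 2 ^ k := by exact_mod_cast this
  linarith

theorem lam_le {k D : ℕ} (hD : 4 * dd k ≤ ((D + 1 : ℕ) : ℝ)) (_hd : 0 ≤ dd k) :
    (1 / 2 : ℝ) ^ (D + 1) * Real.exp (2 * dd k) ≤ Real.exp (-(0.77 * dd k)) := by
  have h1 : (1 / 2 : ℝ) ^ (D + 1) = Real.exp (-(((D + 1 : ℕ) : ℝ) * Real.log 2)) := by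
    rw [Real.exp_neg, mul_comm, Real.exp_mul, Real.exp_log (by norm_num), Real.rpow_natCast,
      one_div, inv_pow]
  rw [h1, ← Real.exp_add]
  refine Real.exp_le_exp.mpr ?_
  have h2 := Real.log_two_gt_d9
  have h3 : 4 * dd k * Real.log 2 ≤ ((D + 1 : ℕ) : ℝ) * Real.log 2 :=
    mul_le_mul_of_nonneg_right hD (by linarith)
  nlinarith

theorem lam_le' {k D : ℕ} (hk : 12 ≤ k) (hD : 4 * dd k ≤ ((D + 1 : ℕ) : ℝ)) :
    (1 / 2 : ℝ) ^ (D + 1) * Real.exp (2 * dd k) ≤ Real.exp (-2.31) * (1 / 2) ^ k := by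
  have h0 := dd_lower hk
  have hk0 : (0 : ℝ) ≤ k := Nat.cast_nonneg k
  refine (lam_le hD (by linarith)).trans ?_
  have h1 : (1 / 2 : ℝ) ^ k = Real.exp (-((k : ℝ) * Real.log 2)) := by
    rw [Real.exp_neg, mul_comm, Real.exp_mul, Real.exp_log (by norm_num), Real.rpow_natCast,
      one_div, inv_pow]
  rw [h1, ← Real.exp_add]
  refine Real.exp_le_exp.mpr ?_
  have h2 := Real.log_two_lt_d9
  nlinarith

theorem num_one {k D : ℕ} (hk : 12 ≤ k) (hD : 4 * dd k ≤ ((D + 1 : ℕ) : ℝ)) :
    Real.exp 1 * (4 * k) * ((1 / 2 : ℝ) ^ (D + 1) * Real.exp (2 * dd k)) ≤ 1 / 2 := by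
  have hk0 : (0 : ℝ) < k := by exact_mod_cast (by omega : 0 < k)
  have h1 := lam_le' hk hD
  have h2 : (1 / 2 : ℝ) ^ k * (4 * k) ≤ 1 / 2 := by
    rw [one_div, inv_pow, inv_mul_le_iff₀ (by positivity)]
    have := pow_lower hk
    have h3 : (22 * (k : ℝ) * (k + 3)) ≤ 2 ^ k := by exact_mod_cast this
    nlinarith
  have h4 : Real.exp 1 * Real.exp (-2.31) ≤ 1 := by
    rw [← Real.exp_add, ← Real.exp_zero]
    exact Real.exp_le_exp.mpr (by norm_num)
  calc Real.exp 1 * (4 * k) * ((1 / 2 : ℝ) ^ (D + 1) * Real.exp (2 * dd k))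
      ≤ Real.exp 1 * (4 * k) * (Real.exp (-2.31) * (1 / 2) ^ k) :=
        mul_le_mul_of_nonneg_left h1 (by positivity)
    _ = (Real.exp 1 * Real.exp (-2.31)) * ((1 / 2) ^ k * (4 * k)) := by ring
    _ ≤ 1 * (1 / 2) := mul_le_mul h4 h2 (by positivity) (by norm_num)
    _ = _ := by norm_num

theorem num_two {k D : ℕ} (hk : 12 ≤ k) (hD : 4 * dd k ≤ ((D + 1 : ℕ) : ℝ)) :
    Real.exp 1 * Real.exp 1 * (4 * k * dd k) * ((1 / 2 : ℝ) ^ (D + 1) * Real.exp (2 * dd k)) ≤
      1 / 4 := by
  have hk0 : (0 : ℝ) < k := by exact_mod_cast (by omega : 0 < k)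
  have h1 := lam_le' hk hD
  have h4 : Real.exp 1 * Real.exp 1 * Real.exp (-2.31) ≤ 1 := by
    rw [← Real.exp_add, ← Real.exp_add, ← Real.exp_zero]
    exact Real.exp_le_exp.mpr (by norm_num)
  have h5 : 4 * (k : ℝ) * dd k = 4 / 22 * 2 ^ k := by
    unfold dd
    field_simp
  have h6 : (2 : ℝ) ^ k * (1 / 2) ^ k = 1 := by rw [← mul_pow]; norm_num
  rw [h5]
  calc Real.exp 1 * Real.exp 1 * (4 / 22 * 2 ^ k) *
        ((1 / 2 : ℝ) ^ (D + 1) * Real.exp (2 * dd k))
      ≤ Real.exp 1 * Real.exp 1 * (4 / 22 * 2 ^ k) * (Real.exp (-2.31) * (1 / 2) ^ k) :=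
        mul_le_mul_of_nonneg_left h1 (by positivity)
    _ = 4 / 22 * (Real.exp 1 * Real.exp 1 * Real.exp (-2.31)) * (2 ^ k * (1 / 2) ^ k) := by ring
    _ = 4 / 22 * (Real.exp 1 * Real.exp 1 * Real.exp (-2.31)) := by rw [h6, mul_one]
    _ ≤ 4 / 22 * 1 := mul_le_mul_of_nonneg_left h4 (by norm_num)
    _ ≤ _ := by norm_num

theorem num_three {k : ℕ} (hk : 12 ≤ k) :
    ∃ β : ℝ, 1 ≤ β ∧ 4 * dd k ≤ (2 - β) * β ^ (k - 2) := by
  obtain ⟨m, rfl⟩ : ∃ m, k = m + 2 := ⟨k - 2, by omega⟩
  have hm0 : (0 : ℝ) < m := by exact_mod_cast (by omega : 0 < m)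
  have hm1 : (1 : ℝ) ≤ m := by exact_mod_cast (by omega : 1 ≤ m)
  refine ⟨2 * m / (m + 1), ?_, ?_⟩
  · rw [le_div_iff₀ (by positivity)]
    linarith
  · rw [show m + 2 - 2 = m by omega]
    have h1 : (1 + 1 / (m : ℝ)) ^ m ≤ Real.exp 1 := by
      calc (1 + 1 / (m : ℝ)) ^ m ≤ (Real.exp (1 / m)) ^ m := by
            refine pow_le_pow_left₀ (by positivity) ?_ _
            rw [add_comm]
            exact Real.add_one_le_exp _
        _ = Real.exp 1 := by
            rw [← Real.exp_nat_mul]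
            congr 1
            field_simp
    have h2 : (2 * (m : ℝ) / (m + 1)) ^ m = 2 ^ m / (1 + 1 / (m : ℝ)) ^ m := by
      rw [← div_pow]
      congr 1
      field_simp
    have h3 : (2 - 2 * (m : ℝ) / (m + 1)) = 2 / (m + 1) := by
      field_simp
      ring
    rw [h2, h3]
    have h4 : (2 : ℝ) ^ m / Real.exp 1 ≤ 2 ^ m / (1 + 1 / (m : ℝ)) ^ m :=
      div_le_div_of_nonneg_left (by positivity) (by positivity) h1
    refine le_trans ?_ (mul_le_mul_of_nonneg_left h4 (by positivity))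
    unfold dd
    have he : Real.exp 1 < 2.7182818286 := Real.exp_one_lt_d9
    have he0 := Real.exp_pos 1
    push_cast
    rw [div_mul_div_comm, ← mul_div_assoc, div_le_div_iff₀ (by positivity) (by positivity)]
    have h5 : (2 : ℝ) ^ (m + 2) = 4 * 2 ^ m := by rw [pow_add]; ring
    rw [h5]
    have h6 : (0 : ℝ) < 2 ^ m := by positivity
    have h7 : 4 * (4 * ((m + 1 : ℝ) * Real.exp 1)) ≤ 2 * (22 * (m + 2 : ℝ)) := by nlinarith
    calc 4 * (4 * (2 : ℝ) ^ m) * ((m + 1) * Real.exp 1)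
        = 2 ^ m * (4 * (4 * ((m + 1 : ℝ) * Real.exp 1))) := by ring
      _ ≤ 2 ^ m * (2 * (22 * (m + 2 : ℝ))) := mul_le_mul_of_nonneg_left h7 h6.le
      _ = _ := by ring

/-- **Client wins the Waiter-Client `k`-SAT game when `q ≥ 22 k² C(n, k) / n`.** -/
theorem client_wc_sat {k : ℕ} (hk : 12 ≤ k) :
    ∀ᶠ n : ℕ in atTop, ∀ q : ℕ, 22 * (k : ℝ) ^ 2 * n.choose k ≤ n * ((q : ℝ) + 1) →
      ¬ WaiterWins q Unsat (board n k) ∅ := by
  obtain ⟨β, hβ, hβd⟩ := num_three hk
  have hk0 : (0 : ℝ) < k := by exact_mod_cast (by omega : 0 < k)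
  have hd0 : 0 < dd k := by
    have := dd_lower hk
    linarith
  set d := dd k with hd
  set D : ℕ := ⌊4 * d⌋₊ with hDdef
  have hD1 : (D : ℝ) ≤ (2 - β) * β ^ (k - 2) := (Nat.floor_le (by positivity)).trans hβd
  have hD2 : 4 * d ≤ ((D + 1 : ℕ) : ℝ) := by
    push_cast
    exact (Nat.lt_floor_add_one _).le
  have hN3 := num_one hk hD2
  have hN4 := num_two hk hD2
  rw [← hd] at hN3 hN4
  set lam : ℝ := (1 / 2 : ℝ) ^ (D + 1) * Real.exp (2 * d) with hlam
  have hlam0 : 0 < lam := by positivity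
  filter_upwards [eventually_ge_atTop (4 * k),
    (tendsto_natCast_atTop_atTop (R := ℝ)).eventually_ge_atTop (32 * k * d)] with n hn1 hn2 q hq hw
  have hkn : k ≤ n := by omega
  have hn0 : (0 : ℝ) < n := by exact_mod_cast (by omega : 0 < n)
  set s₁ : ℕ := n / (2 * k) with hs₁
  have hs2 : 2 ≤ s₁ := by
    rw [hs₁, Nat.le_div_iff_mul_le (by omega)]
    omega
  have hs3 : s₁ * (2 * k) ≤ n := Nat.div_mul_le_self n (2 * k)
  have hs4 : n < (s₁ + 1) * (2 * k) := by
    rw [hs₁]
    have := Nat.lt_div_mul_add (a := n) (b := 2 * k) (by omega)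
    rw [Nat.add_mul, one_mul]
    exact this
  have hs3' : 2 * (s₁ : ℝ) * k ≤ n := by
    have : ((s₁ * (2 * k) : ℕ) : ℝ) ≤ n := by exact_mod_cast hs3
    push_cast at this
    linarith
  have hs1pos : (0 : ℝ) < s₁ := by exact_mod_cast (by omega : 0 < s₁)
  have hs5 : (n : ℝ) / s₁ ≤ 4 * k := by
    rw [div_le_iff₀ hs1pos]
    have h1 : (n : ℝ) ≤ (s₁ + 1) * (2 * k) := by exact_mod_cast hs4.le
    have h2 : (1 : ℝ) ≤ s₁ := by exact_mod_cast (by omega : 1 ≤ s₁)
    nlinarith
  set y : ℕ → ℝ := fun s => 1 + n / (4 * k * (2 ^ k / (22 * k)) * s) with hy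
  have hy1 : ∀ s, 1 ≤ y s := by
    intro s
    simp only [hy]
    have : (0 : ℝ) ≤ n / (4 * k * (2 ^ k / (22 * k)) * s) := by positivity
    linarith
  have hmain := client_wc (Finset.univ : Finset (Finset (Fin n) × Bool)) (aw D s₁ y)
    (gw y) (aw_nonneg D s₁ hy1) (gw_one_le hy1) (board n k)
    (fun P hP hun => detect (by omega) hβ hD1 hy1 P hP hun) hw
    (by rw [Finset.union_empty]) (Finset.disjoint_empty_right _)
  simp only [Finset.prod_empty, one_mul] at hmain
  rw [Fintype.sum_prod_type] at hmain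
  simp only [Fintype.sum_bool] at hmain
  -- the true part
  have hT : ∑ S : Finset (Fin n), aw D s₁ y (S, true) *
      ∏ C ∈ board n k, (1 + (gw y (S, true) C - 1) / ((q : ℝ) + 1)) ≤ 1 / 4 := by
    have h1 : ∀ S : Finset (Fin n), aw D s₁ y (S, true) *
        ∏ C ∈ board n k, (1 + (gw y (S, true) C - 1) / ((q : ℝ) + 1)) ≤
        (fun s : ℕ => if s = s₁ then lam ^ s₁ else 0) S.card := by
      intro S
      unfold aw
      simp only [if_true]
      by_cases h : S.card = s₁
      · rw [if_pos h, if_pos h]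
        have h2 := prod_true (by omega) hkn hq hy1 S (by rw [h]; exact hs3')
        calc _ ≤ (1 / 2 : ℝ) ^ (s₁ * (D + 1)) * Real.exp (S.card * (2 * (2 ^ k / (22 * k)))) :=
              mul_le_mul_of_nonneg_left h2 (by positivity)
          _ = lam ^ s₁ := by
              rw [h, hlam, mul_pow, ← Real.exp_nat_mul, ← pow_mul, mul_comm s₁ (D + 1), hd]
              rfl
      · rw [if_neg h, if_neg h, zero_mul]
    refine (Finset.sum_le_sum fun S _ => h1 S).trans ?_
    rw [← Finset.powerset_univ, Finset.sum_powerset_apply_card (x := (Finset.univ : Finset (Fin n)))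
      (fun s : ℕ => if s = s₁ then lam ^ s₁ else 0), Finset.card_univ, Fintype.card_fin]
    rw [Finset.sum_eq_single s₁]
    · rw [if_pos rfl, nsmul_eq_mul]
      calc (n.choose s₁ : ℝ) * lam ^ s₁ ≤ (Real.exp 1 * (n / s₁)) ^ s₁ * lam ^ s₁ :=
            mul_le_mul_of_nonneg_right (choose_le_exp n s₁ (by omega)) (by positivity)
        _ = (Real.exp 1 * (n / s₁) * lam) ^ s₁ := (mul_pow _ _ _).symm
        _ ≤ (1 / 2) ^ s₁ := by
            refine pow_le_pow_left₀ (by positivity) ?_ _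
            refine le_trans ?_ hN3
            refine mul_le_mul_of_nonneg_right ?_ hlam0.le
            exact mul_le_mul_of_nonneg_left hs5 (Real.exp_pos 1).le
        _ ≤ (1 / 2) ^ 2 := pow_le_pow_of_le_one (by norm_num) (by norm_num) hs2
        _ = _ := by norm_num
    · intro s _ hs
      rw [if_neg hs, smul_zero]
    · intro h
      rw [Finset.mem_range, not_lt] at h
      have : s₁ ≤ n := Nat.div_le_self n (2 * k)
      omega
  -- the false part
  have hF : ∑ S : Finset (Fin n), aw D s₁ y (S, false) *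
      ∏ C ∈ board n k, (1 + (gw y (S, false) C - 1) / ((q : ℝ) + 1)) ≤ 1 / 4 := by
    have h1 : ∀ S : Finset (Fin n), aw D s₁ y (S, false) *
        ∏ C ∈ board n k, (1 + (gw y (S, false) C - 1) / ((q : ℝ) + 1)) ≤
        (fun s : ℕ => if 1 ≤ s ∧ s ≤ s₁ then
          (1 / 2 : ℝ) ^ (s * (D + 1)) * (1 / y s) ^ (s + 1) * Real.exp (s * (2 * d + 1))
          else 0) S.card := by
      intro S
      unfold aw
      simp only [Bool.false_eq_true, if_false]
      by_cases h : 1 ≤ S.card ∧ S.card ≤ s₁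
      · rw [if_pos h, if_pos h]
        have hsS : 2 * (S.card : ℝ) * k ≤ n := by
          have : (S.card : ℝ) ≤ s₁ := by exact_mod_cast h.2
          have h3 : 2 * (S.card : ℝ) * k ≤ 2 * (s₁ : ℝ) * k := by nlinarith
          linarith
        have h2 := prod_false (by omega) hkn hq hy1 S hsS (by omega) rfl
        have hyS : 0 < y S.card := by linarith [hy1 S.card]
        exact mul_le_mul_of_nonneg_left h2 (by positivity)
      · rw [if_neg h, if_neg h, zero_mul]
    refine (Finset.sum_le_sum fun S _ => h1 S).trans ?_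
    rw [← Finset.powerset_univ, Finset.sum_powerset_apply_card (x := (Finset.univ : Finset (Fin n)))
      (fun s : ℕ => if 1 ≤ s ∧ s ≤ s₁ then
          (1 / 2 : ℝ) ^ (s * (D + 1)) * (1 / y s) ^ (s + 1) * Real.exp (s * (2 * d + 1))
          else 0), Finset.card_univ, Fintype.card_fin]
    have h2 : ∀ s ∈ Finset.range (n + 1), (n.choose s) • (if 1 ≤ s ∧ s ≤ s₁ then
          (1 / 2 : ℝ) ^ (s * (D + 1)) * (1 / y s) ^ (s + 1) * Real.exp (s * (2 * d + 1))
          else 0) ≤ (4 * k * d / n) * (1 / 2) ^ s := by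
      intro s _
      rw [nsmul_eq_mul]
      by_cases h : 1 ≤ s ∧ s ≤ s₁
      · rw [if_pos h]
        have hs0 : (0 : ℝ) < s := by exact_mod_cast h.1
        have hys : 0 < y s := by linarith [hy1 s]
        have hyb : 1 / y s ≤ 4 * k * d * s / n := by
          rw [div_le_div_iff₀ hys hn0, one_mul]
          simp only [hy]
          have e : (4 * (k : ℝ) * (2 ^ k / (22 * k)) * s) = 4 * k * d * s := by rw [hd]; rfl
          rw [e]
          have h3 : 0 < 4 * (k : ℝ) * d * s := by positivity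
          have h4 : 4 * (k : ℝ) * d * s * (1 + n / (4 * k * d * s)) = 4 * k * d * s + n := by
            field_simp
          rw [h4]
          linarith
        have h3 : (1 / y s) ^ (s + 1) ≤ (4 * k * d * s / n) ^ (s + 1) :=
          pow_le_pow_left₀ (by positivity) hyb _
        have h4 := choose_le_exp n s (by omega)
        have h5 : (s : ℝ) ≤ 2 ^ s := by exact_mod_cast (Nat.lt_two_pow_self (n := s)).le
        calc (n.choose s : ℝ) * ((1 / 2 : ℝ) ^ (s * (D + 1)) * (1 / y s) ^ (s + 1) *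
              Real.exp (s * (2 * d + 1)))
            ≤ (Real.exp 1 * (n / s)) ^ s * ((1 / 2 : ℝ) ^ (s * (D + 1)) *
              (4 * k * d * s / n) ^ (s + 1) * Real.exp (s * (2 * d + 1))) := by
              refine mul_le_mul h4 ?_ (by positivity) (by positivity)
              exact mul_le_mul_of_nonneg_right
                (mul_le_mul_of_nonneg_left h3 (by positivity)) (Real.exp_pos _).le
          _ = (Real.exp 1 * Real.exp 1 * (4 * k * d) * lam) ^ s * (s * (4 * k * d / n)) := by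
              have e1 : Real.exp (s * (2 * d + 1)) = (Real.exp (2 * d) * Real.exp 1) ^ s := by
                rw [← Real.exp_add, ← Real.exp_nat_mul]
              have e2 : (1 / 2 : ℝ) ^ (s * (D + 1)) = ((1 / 2) ^ (D + 1)) ^ s := by
                rw [← pow_mul, mul_comm]
              rw [e1, e2, pow_succ (4 * (k : ℝ) * d * s / n) s, hlam]
              have e3 : (Real.exp 1 * ((n : ℝ) / s)) ^ s * (((1 / 2 : ℝ) ^ (D + 1)) ^ s *
                  ((4 * k * d * s / n) ^ s * (4 * k * d * s / n)) *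
                  (Real.exp (2 * d) * Real.exp 1) ^ s) =
                  ((Real.exp 1 * ((n : ℝ) / s)) * (1 / 2 : ℝ) ^ (D + 1) * (4 * k * d * s / n) *
                  (Real.exp (2 * d) * Real.exp 1)) ^ s * (4 * k * d * s / n) := by
                rw [mul_pow _ (Real.exp (2 * d) * Real.exp 1) s, mul_pow _ (4 * k * d * s / n) s,
                  mul_pow _ ((1 / 2 : ℝ) ^ (D + 1)) s]
                ring
              rw [e3]
              have e4 : (Real.exp 1 * ((n : ℝ) / s)) * (1 / 2 : ℝ) ^ (D + 1) *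
                  (4 * k * d * s / n) * (Real.exp (2 * d) * Real.exp 1) =
                  Real.exp 1 * Real.exp 1 * (4 * k * d) *
                    ((1 / 2 : ℝ) ^ (D + 1) * Real.exp (2 * d)) := by
                field_simp
              rw [e4]
              ring
          _ ≤ (1 / 4) ^ s * (2 ^ s * (4 * k * d / n)) := by
              refine mul_le_mul (pow_le_pow_left₀ (by positivity) hN4 _) ?_ (by positivity)
                (by positivity)
              exact mul_le_mul_of_nonneg_right h5 (by positivity)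
          _ = (4 * k * d / n) * (1 / 2) ^ s := by
              have e5 : (1 / 4 : ℝ) ^ s * 2 ^ s = (1 / 2) ^ s := by
                rw [← mul_pow]; norm_num
              calc _ = ((1 / 4 : ℝ) ^ s * 2 ^ s) * (4 * k * d / n) := by ring
                _ = _ := by rw [e5]; ring
      · rw [if_neg h, mul_zero]
        positivity
    refine (Finset.sum_le_sum h2).trans ?_
    rw [← Finset.mul_sum]
    have h6 := sum_geometric_two_le (n + 1)
    calc (4 * k * d / n) * ∑ i ∈ Finset.range (n + 1), (1 / 2 : ℝ) ^ i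
        ≤ (4 * k * d / n) * 2 := mul_le_mul_of_nonneg_left h6 (by positivity)
      _ ≤ 1 / 4 := by
          rw [div_mul_eq_mul_div, div_le_iff₀ hn0]
          linarith
  rw [Finset.sum_add_distrib] at hmain
  linarith

end Pool.Agent.W_MP_fefad7_co_h72
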