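import Pool.Agent.W_MP_fefad7_co_h72.Moments
set_option linter.unusedSectionVars false

/-!
Client wins the Waiter-Client `k`-SAT game when `q` is at least `22 k^2 C(n, k) / n`.
-/

namespace Pool.Agent.W_MP_fefad7_co_h72

open Filter Topology

theorem one_add_sum_le_prod {X : Type} [DecidableEq X] (B : Finset X) (x : X → ℝ)
    (hx : ∀ c, 0 ≤ x c) : 1 + ∑ c ∈ B, x c ≤ ∏ c ∈ B, (1 + x c) := by
  induction B using Finset.induction_on with
  | empty => simp
  | insert c B hc ih =>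
    rw [Finset.sum_insert hc, Finset.prod_insert hc]
    have h1 : 0 ≤ ∑ c ∈ B, x c := Finset.sum_nonneg fun c _ => hx c
    have h2 : (1 + x c) * (1 + ∑ c ∈ B, x c) ≤ (1 + x c) * ∏ c ∈ B, (1 + x c) :=
      mul_le_mul_of_nonneg_left ih (by have := hx c; linarith)
    have h3 := mul_nonneg (hx c) h1
    linarith

/-- Client's criterion for the Waiter-Client game. -/
theorem client_wc {X J : Type} [DecidableEq X] (I : Finset J) (a : J → ℝ) (g : J → X → ℝ)
    (ha : ∀ s, 0 ≤ a s) (hg : ∀ s c, 1 ≤ g s c) {q : ℕ} (V : Finset X) {W : Finset X → Prop}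
    (hW : ∀ P ⊆ V, W P → 1 ≤ ∑ s ∈ I, a s * ∏ c ∈ P, g s c) {U P : Finset X}
    (h : WaiterWins q W U P) : U ∪ P ⊆ V → Disjoint U P →
    1 ≤ ∑ s ∈ I, a s * ((∏ c ∈ P, g s c) * ∏ c ∈ U, (1 + (g s c - 1) / ((q : ℝ) + 1))) := by
  have hq : (0 : ℝ) < (q : ℝ) + 1 := by positivity
  have hx : ∀ s c, 0 ≤ (g s c - 1) / ((q : ℝ) + 1) := fun s c =>
    div_nonneg (by linarith [hg s c]) hq.le
  have hPg : ∀ s (P : Finset X), 0 ≤ ∏ c ∈ P, g s c := fun s P =>
    Finset.prod_nonneg fun c _ => by linarith [hg s c]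
  induction h with
  | stop U P hU hP =>
    intro hV _
    refine (hW P (Finset.subset_union_right.trans hV) hP).trans ?_
    refine Finset.sum_le_sum fun s _ => mul_le_mul_of_nonneg_left ?_ (ha s)
    have h1 : 1 ≤ ∏ c ∈ U, (1 + (g s c - 1) / ((q : ℝ) + 1)) := by
      refine le_trans ?_ (one_add_sum_le_prod U _ (hx s))
      have : 0 ≤ ∑ c ∈ U, (g s c - 1) / ((q : ℝ) + 1) := Finset.sum_nonneg fun c _ => hx s c
      linarith
    exact le_mul_of_one_le_right (hPg s P) h1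
  | offer U P B hBU hB _ ih =>
    intro hV hd
    have hcP : ∀ c ∈ B, c ∉ P := fun c hc => Finset.disjoint_left.mp hd (hBU hc)
    have h1 : ∀ c ∈ B, 1 ≤ ∑ s ∈ I, a s * ((∏ c ∈ insert c P, g s c) *
        ∏ c ∈ U \ B, (1 + (g s c - 1) / ((q : ℝ) + 1))) := by
      intro c hc
      refine ih c hc ?_ ?_
      · refine subset_trans ?_ hV
        intro z hz
        rcases Finset.mem_union.mp hz with hz | hz
        · exact Finset.mem_union_left _ (Finset.mem_sdiff.mp hz).1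
        · rcases Finset.mem_insert.mp hz with rfl | hz
          · exact Finset.mem_union_left _ (hBU hc)
          · exact Finset.mem_union_right _ hz
      · rw [Finset.disjoint_insert_right]
        refine ⟨fun h => (Finset.mem_sdiff.mp h).2 hc, ?_⟩
        exact Disjoint.mono_left Finset.sdiff_subset hd
    have h2 : ((q : ℝ) + 1) ≤ ∑ c ∈ B, ∑ s ∈ I, a s * ((∏ c ∈ insert c P, g s c) *
        ∏ c ∈ U \ B, (1 + (g s c - 1) / ((q : ℝ) + 1))) := by
      calc ((q : ℝ) + 1) = ∑ _c ∈ B, (1 : ℝ) := by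
            rw [Finset.sum_const, hB, nsmul_eq_mul]; push_cast; ring
        _ ≤ _ := Finset.sum_le_sum h1
    rw [Finset.sum_comm] at h2
    have h3 : ∀ s ∈ I, ∑ c ∈ B, a s * ((∏ c ∈ insert c P, g s c) *
        ∏ c ∈ U \ B, (1 + (g s c - 1) / ((q : ℝ) + 1))) ≤
        ((q : ℝ) + 1) * (a s * ((∏ c ∈ P, g s c) *
          ∏ c ∈ U, (1 + (g s c - 1) / ((q : ℝ) + 1)))) := by
      intro s _
      have e1 : ∑ c ∈ B, a s * ((∏ c ∈ insert c P, g s c) *
          ∏ c ∈ U \ B, (1 + (g s c - 1) / ((q : ℝ) + 1))) =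
          (∑ c ∈ B, g s c) * (a s * ((∏ c ∈ P, g s c) *
            ∏ c ∈ U \ B, (1 + (g s c - 1) / ((q : ℝ) + 1)))) := by
        rw [Finset.sum_mul]
        refine Finset.sum_congr rfl fun c hc => ?_
        rw [Finset.prod_insert (hcP c hc)]
        ring
      have e2 : ∏ c ∈ U, (1 + (g s c - 1) / ((q : ℝ) + 1)) =
          (∏ c ∈ U \ B, (1 + (g s c - 1) / ((q : ℝ) + 1))) *
            ∏ c ∈ B, (1 + (g s c - 1) / ((q : ℝ) + 1)) := (Finset.prod_sdiff hBU).symm
      have e3 : ∑ c ∈ B, g s c ≤ ((q : ℝ) + 1) * ∏ c ∈ B, (1 + (g s c - 1) / ((q : ℝ) + 1)) := by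
        refine le_trans (le_of_eq ?_)
          (mul_le_mul_of_nonneg_left (one_add_sum_le_prod B _ (hx s)) hq.le)
        rw [← Finset.sum_div, Finset.sum_sub_distrib, Finset.sum_const, hB, nsmul_eq_mul]
        push_cast
        field_simp
        ring
      rw [e1, e2]
      have h4 : 0 ≤ a s * ((∏ c ∈ P, g s c) *
            ∏ c ∈ U \ B, (1 + (g s c - 1) / ((q : ℝ) + 1))) := by
        refine mul_nonneg (ha s) (mul_nonneg (hPg s P) (Finset.prod_nonneg fun c _ => ?_))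
        have := hx s c
        linarith
      have h5 := mul_le_mul_of_nonneg_right e3 h4
      refine h5.trans (le_of_eq ?_)
      ring
    have h4 := h2.trans (Finset.sum_le_sum h3)
    rw [← Finset.mul_sum] at h4
    by_contra h5
    push Not at h5
    nlinarith

/-- The weights. -/
noncomputable def gw {n : ℕ} (y : ℕ → ℝ) (p : Finset (Fin n) × Bool)
    (C : Finset (Fin n × Bool)) : ℝ :=
  2 ^ (vars C ∩ p.1).card *
    (if p.2 = true then 1 else if 2 ≤ (vars C ∩ p.1).card then y p.1.card else 1)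

theorem gw_one_le {n : ℕ} {y : ℕ → ℝ} (hy : ∀ s, 1 ≤ y s) (p : Finset (Fin n) × Bool)
    (C : Finset (Fin n × Bool)) : 1 ≤ gw y p C := by
  unfold gw
  have h1 : (1 : ℝ) ≤ 2 ^ (vars C ∩ p.1).card := one_le_pow₀ (by norm_num)
  refine one_le_mul_of_one_le_of_one_le h1 ?_
  split_ifs
  · exact le_rfl
  · exact hy _
  · exact le_rfl

/-- The coefficients. -/
noncomputable def aw {n : ℕ} (D s₁ : ℕ) (y : ℕ → ℝ) (p : Finset (Fin n) × Bool) : ℝ :=
  if p.2 = true then (if p.1.card = s₁ then (1 / 2) ^ (s₁ * (D + 1)) else 0)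
  else (if 1 ≤ p.1.card ∧ p.1.card ≤ s₁ then
    (1 / 2) ^ (p.1.card * (D + 1)) * (1 / y p.1.card) ^ (p.1.card + 1) else 0)

theorem aw_nonneg {n : ℕ} (D s₁ : ℕ) {y : ℕ → ℝ} (hy : ∀ s, 1 ≤ y s)
    (p : Finset (Fin n) × Bool) : 0 ≤ aw D s₁ y p := by
  have h0 : ∀ s, 0 ≤ y s := fun s => by linarith [hy s]
  unfold aw
  split_ifs
  · positivity
  · exact le_rfl
  · have := h0 p.1.card
    positivity
  · exact le_rfl

theorem sum_inter_deg {n : ℕ} (P : Finset (Finset (Fin n × Bool))) (S : Finset (Fin n)) (D : ℕ)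
    (h : ∀ v ∈ S, D ≤ (P.filter fun C => v ∈ vars C).card) :
    S.card * D ≤ ∑ C ∈ P, (vars C ∩ S).card := by
  have h1 : ∑ C ∈ P, (vars C ∩ S).card = ∑ v ∈ S, (P.filter fun C => v ∈ vars C).card := by
    have e1 : ∀ C : Finset (Fin n × Bool), (vars C ∩ S).card =
        ∑ v ∈ S, if v ∈ vars C then 1 else 0 := by
      intro C
      rw [Finset.sum_ite, Finset.sum_const_zero, add_zero, Finset.sum_const, smul_eq_mul, mul_one]
      congr 1
      ext v
      simp only [Finset.mem_inter, Finset.mem_filter]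
      tauto
    rw [Finset.sum_congr rfl fun C _ => e1 C, Finset.sum_comm]
    refine Finset.sum_congr rfl fun v _ => ?_
    rw [Finset.card_filter]
  rw [h1]
  calc S.card * D = ∑ _v ∈ S, D := by rw [Finset.sum_const, smul_eq_mul]
    _ ≤ _ := Finset.sum_le_sum h

/-- Unsatisfiability is detected by the weights. -/
theorem detect {n k D s₁ : ℕ} (hk : 2 ≤ k) {β : ℝ} (hβ : 1 ≤ β)
    (hD : (D : ℝ) ≤ (2 - β) * β ^ (k - 2)) {y : ℕ → ℝ} (hy : ∀ s, 1 ≤ y s)
    (P : Finset (Finset (Fin n × Bool))) (hP : P ⊆ board n k) (hun : Unsat P) :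
    1 ≤ ∑ p : Finset (Fin n) × Bool, aw D s₁ y p * ∏ C ∈ P, gw y p C := by
  obtain ⟨S, hSne, hdeg, hlink⟩ := unsat_structure P hP hk hβ hD hun
  have hnn : ∀ p : Finset (Fin n) × Bool, 0 ≤ aw D s₁ y p * ∏ C ∈ P, gw y p C := fun p =>
    mul_nonneg (aw_nonneg D s₁ hy p) (Finset.prod_nonneg fun C _ => by
      linarith [gw_one_le hy p C])
  rcases le_or_gt s₁ S.card with h | h
  · obtain ⟨S', hS', hc⟩ := Finset.exists_subset_card_eq h
    refine le_trans ?_ (Finset.single_le_sum (fun p _ => hnn p)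
      (Finset.mem_univ ((S', true) : Finset (Fin n) × Bool)))
    have e1 : aw D s₁ y (S', true) = (1 / 2) ^ (s₁ * (D + 1)) := by
      unfold aw
      simp [hc]
    have e2 : ∏ C ∈ P, gw y (S', true) C = 2 ^ (∑ C ∈ P, (vars C ∩ S').card) := by
      unfold gw
      simp only [if_true, mul_one]
      rw [Finset.prod_pow_eq_pow_sum]
    rw [e1, e2]
    have h1 := sum_inter_deg P S' (D + 1) (fun v hv => hdeg v (hS' hv))
    rw [hc] at h1
    calc (1 : ℝ) = (1 / 2) ^ (s₁ * (D + 1)) * 2 ^ (s₁ * (D + 1)) := by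
          rw [← mul_pow]; norm_num
      _ ≤ _ := mul_le_mul_of_nonneg_left (pow_le_pow_right₀ (by norm_num) h1) (by positivity)
  · refine le_trans ?_ (Finset.single_le_sum (fun p _ => hnn p)
      (Finset.mem_univ ((S, false) : Finset (Fin n) × Bool)))
    have hy0 : 0 < y S.card := by linarith [hy S.card]
    have e1 : aw D s₁ y (S, false) =
        (1 / 2) ^ (S.card * (D + 1)) * (1 / y S.card) ^ (S.card + 1) := by
      unfold aw
      simp only [Bool.false_eq_true, if_false]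
      rw [if_pos ⟨Finset.card_pos.mpr hSne, h.le⟩]
    have e2 : ∏ C ∈ P, gw y (S, false) C = 2 ^ (∑ C ∈ P, (vars C ∩ S).card) *
        y S.card ^ (P.filter fun C => 2 ≤ (vars C ∩ S).card).card := by
      unfold gw
      simp only [Bool.false_eq_true, if_false]
      rw [Finset.prod_mul_distrib, Finset.prod_pow_eq_pow_sum]
      congr 1
      rw [Finset.prod_ite, Finset.prod_const, Finset.prod_const_one, mul_one]
    rw [e1, e2]
    have h1 := sum_inter_deg P S (D + 1) hdeg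
    have h2 : (1 : ℝ) ≤ (1 / 2) ^ (S.card * (D + 1)) * 2 ^ (∑ C ∈ P, (vars C ∩ S).card) := by
      calc (1 : ℝ) = (1 / 2) ^ (S.card * (D + 1)) * 2 ^ (S.card * (D + 1)) := by
            rw [← mul_pow]; norm_num
        _ ≤ _ := mul_le_mul_of_nonneg_left (pow_le_pow_right₀ (by norm_num) h1) (by positivity)
    have h3 : (1 : ℝ) ≤ (1 / y S.card) ^ (S.card + 1) *
        y S.card ^ (P.filter fun C => 2 ≤ (vars C ∩ S).card).card := by
      calc (1 : ℝ) = (1 / y S.card) ^ (S.card + 1) * y S.card ^ (S.card + 1) := by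
            rw [← mul_pow, one_div_mul_cancel hy0.ne', one_pow]
        _ ≤ _ := mul_le_mul_of_nonneg_left (pow_le_pow_right₀ (hy _) hlink) (by positivity)
    calc (1 : ℝ) ≤ ((1 / 2) ^ (S.card * (D + 1)) * 2 ^ (∑ C ∈ P, (vars C ∩ S).card)) *
          ((1 / y S.card) ^ (S.card + 1) *
            y S.card ^ (P.filter fun C => 2 ≤ (vars C ∩ S).card).card) :=
          one_le_mul_of_one_le_of_one_le h2 h3
      _ = _ := by ring

theorem prod_le_exp {X : Type} (U : Finset X) (x : X → ℝ) (hx : ∀ c, 0 ≤ x c) :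
    ∏ c ∈ U, (1 + x c) ≤ Real.exp (∑ c ∈ U, x c) := by
  rw [Real.exp_sum]
  refine Finset.prod_le_prod (fun c _ => by linarith [hx c]) fun c _ => ?_
  rw [add_comm]
  exact Real.add_one_le_exp _

/-- The expectations. -/
theorem prod_true {n k q : ℕ} (hk : 1 ≤ k) (hkn : k ≤ n)
    (hq : 22 * (k : ℝ) ^ 2 * n.choose k ≤ n * ((q : ℝ) + 1)) {y : ℕ → ℝ} (hy : ∀ s, 1 ≤ y s)
    (S : Finset (Fin n)) (hS : 2 * (S.card : ℝ) * k ≤ n) :
    ∏ C ∈ board n k, (1 + (gw y (S, true) C - 1) / ((q : ℝ) + 1)) ≤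
      Real.exp (S.card * (2 * (2 ^ k / (22 * k)))) := by
  have hn : 0 < n := by omega
  have hn0 : (0 : ℝ) < n := by exact_mod_cast hn
  have hk0 : (0 : ℝ) < k := by exact_mod_cast (by omega : 0 < k)
  have hq0 : (0 : ℝ) < (q : ℝ) + 1 := by positivity
  refine (prod_le_exp _ _ fun C => div_nonneg (by linarith [gw_one_le hy (S, true) C]) hq0.le).trans ?_
  refine Real.exp_le_exp.mpr ?_
  rw [← Finset.sum_div, div_le_iff₀ hq0]
  have h1 : ∑ C ∈ board n k, (gw y (S, true) C - 1) =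
      ∑ C ∈ board n k, ((2 : ℝ) ^ (vars C ∩ S).card - 1) := by
    refine Finset.sum_congr rfl fun C _ => ?_
    unfold gw
    simp
  rw [h1]
  have hSk : 0 ≤ (S.card : ℝ) * k := by positivity
  refine (sum_one hkn hn S (by linarith)).trans ?_
  have h2 : (2 : ℝ) ^ k * n.choose k * (2 * (S.card * k / n)) =
      (22 * (k : ℝ) ^ 2 * n.choose k) * (S.card * (2 * (2 ^ k / (22 * k))) / n) := by
    field_simp
  rw [h2]
  calc _ ≤ (n * ((q : ℝ) + 1)) * (S.card * (2 * (2 ^ k / (22 * k))) / n) :=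
        mul_le_mul_of_nonneg_right hq (by positivity)
    _ = _ := by field_simp

theorem prod_false {n k q : ℕ} (hk : 1 ≤ k) (hkn : k ≤ n)
    (hq : 22 * (k : ℝ) ^ 2 * n.choose k ≤ n * ((q : ℝ) + 1)) {y : ℕ → ℝ} (hy : ∀ s, 1 ≤ y s)
    (S : Finset (Fin n)) (hS : 2 * (S.card : ℝ) * k ≤ n) (hS0 : 0 < S.card)
    (hyS : y S.card = 1 + n / (4 * k * (2 ^ k / (22 * k)) * S.card)) :
    ∏ C ∈ board n k, (1 + (gw y (S, false) C - 1) / ((q : ℝ) + 1)) ≤
      Real.exp (S.card * (2 * (2 ^ k / (22 * k)) + 1)) := by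
  have hn : 0 < n := by omega
  have hn0 : (0 : ℝ) < n := by exact_mod_cast hn
  have hk0 : (0 : ℝ) < k := by exact_mod_cast (by omega : 0 < k)
  have hq0 : (0 : ℝ) < (q : ℝ) + 1 := by positivity
  have hs0 : (0 : ℝ) < S.card := by exact_mod_cast hS0
  refine (prod_le_exp _ _ fun C =>
    div_nonneg (by linarith [gw_one_le hy (S, false) C]) hq0.le).trans ?_
  refine Real.exp_le_exp.mpr ?_
  rw [← Finset.sum_div, div_le_iff₀ hq0]
  have h1 : ∑ C ∈ board n k, (gw y (S, false) C - 1) =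
      ∑ C ∈ board n k, ((2 : ℝ) ^ (vars C ∩ S).card - 1) + (y S.card - 1) *
      ∑ C ∈ board n k, (if 2 ≤ (vars C ∩ S).card then (2 : ℝ) ^ (vars C ∩ S).card else 0) := by
    rw [Finset.mul_sum, ← Finset.sum_add_distrib]
    refine Finset.sum_congr rfl fun C _ => ?_
    unfold gw
    simp only [Bool.false_eq_true, if_false]
    split_ifs <;> ring
  rw [h1]
  have hSk : 0 ≤ (S.card : ℝ) * k := by positivity
  have hy1 : 0 ≤ y S.card - 1 := by linarith [hy S.card]
  refine (add_le_add (sum_one hkn hn S (by linarith))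
    (mul_le_mul_of_nonneg_left (sum_two hkn hn S hS) hy1)).trans ?_
  have h2 : (2 : ℝ) ^ k * n.choose k * (2 * (S.card * k / n)) + (y S.card - 1) *
      ((2 : ℝ) ^ k * n.choose k * (2 * (S.card * k / n)) ^ 2) =
      (22 * (k : ℝ) ^ 2 * n.choose k) * (S.card * (2 * (2 ^ k / (22 * k)) + 1) / n) := by
    rw [hyS]
    field_simp
    ring
  rw [h2]
  calc _ ≤ (n * ((q : ℝ) + 1)) * (S.card * (2 * (2 ^ k / (22 * k)) + 1) / n) :=
        mul_le_mul_of_nonneg_right hq (by positivity)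
    _ = _ := by field_simp

theorem choose_le_exp (n s : ℕ) (hs : 0 < s) :
    (n.choose s : ℝ) ≤ (Real.exp 1 * (n / s)) ^ s := by
  have hs0 : (0 : ℝ) < s := by exact_mod_cast hs
  have h1 : (n.choose s : ℝ) ≤ (n : ℝ) ^ s / s.factorial := Nat.choose_le_pow_div s n
  have h2 : (s : ℝ) ^ s / s.factorial ≤ Real.exp s := Real.pow_div_factorial_le_exp s hs0.le s
  have h3 : (n : ℝ) ^ s / s.factorial = (n / s : ℝ) ^ s * ((s : ℝ) ^ s / s.factorial) := by
    rw [div_pow]
    field_simp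
  rw [mul_pow, ← Real.exp_nat_mul, mul_one]
  calc (n.choose s : ℝ) ≤ (n / s : ℝ) ^ s * ((s : ℝ) ^ s / s.factorial) := by rw [← h3]; exact h1
    _ ≤ (n / s : ℝ) ^ s * Real.exp s := mul_le_mul_of_nonneg_left h2 (by positivity)
    _ = _ := by ring

end Pool.Agent.W_MP_fefad7_co_h72
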